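import Mathlib

namespace Pool.Agent.Results.MP_6e410e_gt.Willerton

open Function Finset
open scoped Classical

/-!
# The bound for the Vassiliev invariant of degree three

Knots are given by their diagrams on the oriented sphere, up to Reidemeister moves.

Let `C` be the set of crossings of an oriented knot diagram. At every crossing exactly one of the
two strands is crossed by the other one from its right side to its left side. Turn the crossing
`c` so that this strand runs from west to east; the other one then runs from south to north.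
The pair `(c, true)` is the passage of the knot through `c` along the west-east strand and
`(c, false)` is the passage through `c` along the south-north strand. The map `next` sends a
passage to the passage that follows it along the oriented knot. Every edge of the diagram is named
by the passage at which it arrives, so the edge that leaves the passage `x` is `next x`.

Idea of the proof. For two crossings `a`, `b` let `D a b` be `1`, `-1` or `0`, according to whether
the closed curve that starts at the passage `(a, true)` and returns at `(a, false)` runs through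
`(b, false)` only, through `(b, true)` only, or through both or none of them. This matrix is
antisymmetric, and for a planar diagram all its row sums vanish. Let `e` be the sign of a crossing
as an integer. Then

`48 v = 2 * (sum over a b c of (D a b * D b c * D c a) ^ 2 * e a * e b * e c)`
`+ 3 * (sum over m a c of (1 - D a c ^ 2) * e m * (D m a ^ 2 * D m c ^ 2 * e a * e c + D m a * D m c))`

is invariant under the Reidemeister moves. All properties in the theorem can be read off from this
formula. An unordered triple of crossings contributes at most `12`, and the terms with two equal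
indices give at most six times the number of ordered interlaced pairs of crossings.
-/

/-! ## Knot diagrams -/

/-- A side is an edge together with `true` for its left side or `false` for its right side.
`Quadrant next c x y` says that the sides `x` and `y` bound a common quadrant (north-east,
north-west, south-west or south-east) of the crossing `c`. -/
inductive Quadrant {C : Type} (next : C × Bool → C × Bool) (c : C) :
    (C × Bool) × Bool → (C × Bool) × Bool → Prop
  | ne : Quadrant next c (next (c, true), true) (next (c, false), false)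
  | nw : Quadrant next c (next (c, false), true) ((c, true), true)
  | sw : Quadrant next c ((c, true), false) ((c, false), true)
  | se : Quadrant next c ((c, false), false) (next (c, true), false)

/-- The regions of the diagram: the classes of the equivalence relation on the sides that is
generated by the quadrants of all crossings. -/
def Region {C : Type} (next : C × Bool → C × Bool) : Type :=
  Quot (fun x y => ∃ c, Quadrant next c x y)

/-- An oriented knot diagram on the sphere. `one_component`: a single closed curve runs through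
all passages. `planar`: the diagram has `V = card C` vertices and `2 V` edges, so Euler's formula
`V - 2 V + F = 2` (genus zero) says `F = V + 2`; for the diagram without crossings there is
nothing to demand. `sign c` is the sign of the crossing (`true` for a positive crossing). At a
positive crossing the strand over is the one from west to east, at a negative crossing it is the
one from south to north; so the passage over at `c` is `(c, sign c)` and the passage under is
`(c, !sign c)`. -/
structure KnotDiagram where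
  C : Type
  finC : Finite C
  next : C × Bool → C × Bool
  one_component : ∀ x y : C × Bool, ∃ k : ℕ, next^[k] x = y
  planar : Nonempty C → Nat.card (Region next) = Nat.card C + 2
  sign : C → Bool

/-! ## Reidemeister moves -/

/-- `D` is obtained from `D'` by erasing the crossings in `S` (both strands run straight through
the place of the crossing). For `S = ∅` the diagrams `D` and `D'` are isomorphic. -/
def Erases (D' D : KnotDiagram) (S : Set D'.C) : Prop :=
  ∃ ι : D.C → D'.C, Function.Injective ι ∧ Set.range ι = Sᶜ ∧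
    (∀ c, D'.sign (ι c) = D.sign c) ∧
    ∀ x : D.C × Bool, ∃ k : ℕ,
      D'.next^[k + 1] (ι x.1, x.2) = (ι (D.next x).1, (D.next x).2) ∧
      ∀ j < k, (D'.next^[j + 1] (ι x.1, x.2)).1 ∈ S

/-- The passages `x` and `y` are consecutive (in this or in the other order) and `e` is the edge
between them. -/
def Joins {C : Type} (next : C × Bool → C × Bool) (x y e : C × Bool) : Prop :=
  (next x = y ∧ e = y) ∨ (next y = x ∧ e = x)

/-- The sides `x` and `y` meet in a quadrant of the crossing `c`. -/
def Meet {C : Type} (next : C × Bool → C × Bool) (c : C) (x y : (C × Bool) × Bool) : Prop :=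
  Quadrant next c x y ∨ Quadrant next c y x

/-- The triangle of the third Reidemeister move. The top strand runs over the crossings `p` and
`q`, the middle strand runs under `p` and over `r`, the bottom strand runs under `q` and `r`; the
edges `x`, `y`, `z` of these strands between the three crossings bound a triangular region. -/
structure Triangle (D : KnotDiagram) (p q r : D.C) : Prop where
  pq : p ≠ q
  pr : p ≠ r
  qr : q ≠ r
  region : ∃ (x y z : D.C × Bool) (s t u : Bool),
    Joins D.next (p, D.sign p) (q, D.sign q) x ∧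
    Joins D.next (p, !D.sign p) (r, D.sign r) y ∧
    Joins D.next (q, !D.sign q) (r, !D.sign r) z ∧
    Meet D.next p (x, s) (y, t) ∧ Meet D.next q (x, s) (z, u) ∧ Meet D.next r (y, t) (z, u)

/-- On each of the three strands of a triangle the two passages change their places. -/
noncomputable def slide {C : Type} (s : C → Bool) (p q r : C) (x : C × Bool) : C × Bool :=
  if x = (p, s p) then (q, s q) else if x = (q, s q) then (p, s p)
  else if x = (p, !s p) then (r, s r) else if x = (r, s r) then (p, !s p)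
  else if x = (q, !s q) then (r, !s r) else if x = (r, !s r) then (q, !s q) else x

/-- The Reidemeister moves. `relabel`: isomorphic diagrams. `r1`: the crossing `p` of a loop
without further crossings is erased. `r2`: the two crossings `p`, `q` of a bigon are erased, whose
one strand (the one of the passages `(p, b)` and `(q, !b)`) runs over or under both of them.
`r3`: in a triangle the three strands are moved over each other. -/
inductive Move : KnotDiagram → KnotDiagram → Prop
  | relabel (D' D : KnotDiagram) : Erases D' D ∅ → Move D' D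
  | r1 (D' D : KnotDiagram) (p : D'.C) (b : Bool) :
      D'.next (p, b) = (p, !b) → Erases D' D {p} → Move D' D
  | r2 (D' D : KnotDiagram) (p q : D'.C) (b : Bool) :
      p ≠ q → D'.sign p ≠ D'.sign q → D'.next (p, b) = (q, !b) →
      (D'.next (p, !b) = (q, b) ∨ D'.next (q, b) = (p, !b)) → Erases D' D {p, q} → Move D' D
  | r3 (D D' : KnotDiagram) (p q r : D.C) (e : D.C ≃ D'.C) :
      Triangle D p q r → (∀ c, D'.sign (e c) = D.sign c) →
      (∀ x, D'.next (Prod.map e id (slide D.sign p q r x)) =
        Prod.map e id (slide D.sign p q r (D.next x))) → Move D D'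

/-! ## Singular diagrams, mirror images and the trefoil -/

/-- The diagram obtained from the singular diagram `(D, A)` (the crossings in `A` are made double
points) by resolving the double points in `T` negatively and the other ones positively. -/
noncomputable def KnotDiagram.resolve (D : KnotDiagram) (A T : Finset D.C) : KnotDiagram :=
  { D with sign := fun c => if c ∈ A then decide (c ∉ T) else D.sign c }

/-- The value on the singular diagram `(D, A)` of the extension of `v` by the rule
`v(K_x) = v(K_+) - v(K_-)`. -/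
noncomputable def singularValue (v : KnotDiagram → ℝ) (D : KnotDiagram) (A : Finset D.C) : ℝ :=
  ∑ T ∈ A.powerset, (-1 : ℝ) ^ T.card * v (D.resolve A T)

/-- The mirror image: all crossings are changed. -/
def KnotDiagram.mirror (D : KnotDiagram) : KnotDiagram := { D with sign := fun c => !D.sign c }

/-- The shadow of the closed braid with two strands and three crossings. -/
def trefNext (x : Fin 3 × Bool) : Fin 3 × Bool := (x.1 + 1, !x.2)

/-- The region of a side in the diagram of the trefoil. -/
def trefFwd (x : (Fin 3 × Bool) × Bool) : Fin 3 ⊕ Bool :=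
  match x with
  | ((_, true), true) => Sum.inr true
  | ((_, false), false) => Sum.inr false
  | ((i, true), false) => Sum.inl i
  | ((i, false), true) => Sum.inl i

/-- The diagram of the trefoil has five regions. -/
def trefRegions : Region trefNext ≃ Fin 3 ⊕ Bool where
  toFun := Quot.lift trefFwd (by
    intro x y h
    obtain ⟨c, h⟩ := h
    cases h <;> rfl)
  invFun := fun r => match r with
    | Sum.inl i => Quot.mk _ ((i, true), false)
    | Sum.inr true => Quot.mk _ ((0, true), true)
    | Sum.inr false => Quot.mk _ ((0, false), false)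
  left_inv := by
    intro q
    induction q using Quot.ind with
    | mk x =>
      obtain ⟨⟨i, b⟩, s⟩ := x
      have hL : ∀ i : Fin 3, Quot.mk (fun x y => ∃ c, Quadrant trefNext c x y)
          ((i + 1, true), true) = Quot.mk _ ((i, true), true) :=
        fun i => Quot.sound ⟨i, Quadrant.nw (next := trefNext)⟩
      have hR : ∀ i : Fin 3, Quot.mk (fun x y => ∃ c, Quadrant trefNext c x y)
          ((i, false), false) = Quot.mk _ ((i + 1, false), false) :=
        fun i => Quot.sound ⟨i, Quadrant.se (next := trefNext)⟩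
      have l1 := hL 0
      have l2 := hL 1
      have r1 := hR 0
      have r2 := hR 1
      cases b <;> cases s
      · fin_cases i
        · rfl
        · exact r1
        · exact r1.trans r2
      · exact Quot.sound ⟨i, Quadrant.sw (next := trefNext)⟩
      · rfl
      · fin_cases i
        · rfl
        · exact l1.symm
        · exact (l2.trans l1).symm
  right_inv := by
    rintro (i | b)
    · rfl
    · cases b <;> rfl

theorem tref_one : ∀ x y : Fin 3 × Bool, ∃ k : ℕ, trefNext^[k] x = y := by
  have h : ∀ x y : Fin 3 × Bool, ∃ k : Fin 6, trefNext^[k] x = y := by decide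
  intro x y
  obtain ⟨k, hk⟩ := h x y
  exact ⟨k, hk⟩

/-- The standard diagram of the right-handed trefoil, with three positive crossings. -/
def rightTrefoil : KnotDiagram where
  C := Fin 3
  finC := inferInstance
  next := trefNext
  one_component := tref_one
  planar := fun _ => by rw [Nat.card_congr trefRegions]; simp
  sign := fun _ => true

/-! ## Cyclic order -/

/-- `before f x y z`: starting at `x` and iterating `f` one meets `y` without meeting `z` first. -/
def before {α : Type} (f : α → α) (x y z : α) : Prop :=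
  ∃ k : ℕ, f^[k] x = y ∧ ∀ j ≤ k, f^[j] x ≠ z

section cyc

variable {α : Type} {f : α → α}

theorem before_trans {x y z w : α} (h1 : before f x y w) (h2 : before f y z w) :
    before f x z w := by
  obtain ⟨a, rfl, ha⟩ := h1
  obtain ⟨b, rfl, hb⟩ := h2
  refine ⟨b + a, by rw [Function.iterate_add_apply], fun j hj => ?_⟩
  rcases le_total j a with h | h
  · exact ha j h
  · obtain ⟨i, rfl⟩ := Nat.exists_eq_add_of_le h
    rw [Nat.add_comm, Function.iterate_add_apply]
    exact hb i (by omega)

theorem before_refl {x w : α} (h : x ≠ w) : before f x x w :=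
  ⟨0, rfl, fun j hj => by
    have : j = 0 := by omega
    subst this; exact h⟩

theorem before_step {x w : α} (h : x ≠ w) (h' : f x ≠ w) : before f x (f x) w :=
  ⟨1, rfl, fun j hj => by
    interval_cases j
    · exact h
    · exact h'⟩

theorem before_excl {x y z : α} (h1 : before f x y z) (h2 : before f x z y) : False := by
  obtain ⟨a, ha, ha'⟩ := h1
  obtain ⟨b, hb, hb'⟩ := h2
  rcases le_total a b with h | h
  · exact hb' a h ha
  · exact ha' b h hb

theorem before_total (h : ∀ x y : α, ∃ k : ℕ, f^[k] x = y) {x y z : α} (hyz : y ≠ z) :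
    before f x y z ∨ before f x z y := by
  have hy := Nat.find_spec (h x y)
  have hz := Nat.find_spec (h x z)
  rcases lt_trichotomy (Nat.find (h x y)) (Nat.find (h x z)) with hlt | heq | hlt
  · left
    exact ⟨_, hy, fun j hj => Nat.find_min (h x z) (by omega)⟩
  · rw [heq] at hy
    exact absurd (hy.symm.trans hz) hyz
  · right
    exact ⟨_, hz, fun j hj => Nat.find_min (h x y) (by omega)⟩

theorem not_before_iff (h : ∀ x y : α, ∃ k : ℕ, f^[k] x = y) {x y z : α} (hyz : y ≠ z) :
    ¬ before f x y z ↔ before f x z y :=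
  ⟨fun h1 => (before_total h hyz).resolve_left h1, fun h1 h2 => before_excl h1 h2⟩

/-- A numbering of the cycle. -/
structure Num (f : α → α) (N : ℕ) (pos : α → ℕ) : Prop where
  lt : ∀ x, pos x < N
  inj : Function.Injective pos
  step : ∀ x, pos (f x) = pos x + 1 ∨ (pos (f x) = 0 ∧ pos x + 1 = N)

theorem exists_num [Finite α] (h : ∀ x y : α, ∃ k : ℕ, f^[k] x = y) (x0 : α) :
    ∃ (N : ℕ) (pos : α → ℕ), Num f N pos ∧ pos x0 = 0 := by
  have hinj : Function.Injective f := by
    rw [Finite.injective_iff_surjective]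
    intro y
    obtain ⟨k, hk⟩ := h (f y) y
    refine ⟨f^[k] y, ?_⟩
    have h1 := Function.iterate_succ_apply' f k y
    rw [Function.iterate_succ_apply] at h1
    rw [← h1]
    exact hk
  have hper : x0 ∈ Function.periodicPts f := by
    obtain ⟨k, hk⟩ := h (f x0) x0
    refine ⟨k + 1, by omega, ?_⟩
    unfold Function.IsPeriodicPt Function.IsFixedPt
    rw [Function.iterate_succ_apply]
    exact hk
  have hpos := Function.minimalPeriod_pos_of_mem_periodicPts hper
  set N := Function.minimalPeriod f x0 with hN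
  let pos : α → ℕ := fun x => Nat.find (h x0 x)
  have hp : ∀ x, f^[pos x] x0 = x := fun x => Nat.find_spec (h x0 x)
  have hlt : ∀ x, pos x < N := by
    intro x
    have h1 : f^[pos x % N] x0 = x := by
      rw [Function.iterate_mod_minimalPeriod_eq]; exact hp x
    have h2 : pos x ≤ pos x % N := Nat.find_min' (h x0 x) h1
    exact lt_of_le_of_lt h2 (Nat.mod_lt _ hpos)
  have hval : ∀ j < N, pos (f^[j] x0) = j := by
    intro j hj
    exact Function.iterate_injOn_Iio_minimalPeriod (hlt _) hj (hp _)
  refine ⟨N, pos, ⟨hlt, ?_, ?_⟩, ?_⟩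
  · intro x y hxy
    rw [← hp x, ← hp y, hxy]
  · intro x
    have h1 : f x = f^[pos x + 1] x0 := by
      rw [Function.iterate_succ_apply', hp x]
    rcases Nat.lt_or_ge (pos x + 1) N with h2 | h2
    · left
      rw [h1, hval _ h2]
    · right
      have h3 : pos x + 1 = N := by have := hlt x; omega
      refine ⟨?_, h3⟩
      rw [h1, h3, hN]
      have h4 : f^[Function.minimalPeriod f x0] x0 = x0 := Function.iterate_minimalPeriod
      rw [h4]
      exact hval 0 hpos
  · exact hval 0 hpos

def nc (a b c : ℕ) : Prop := (a < b ∧ b < c) ∨ (b < c ∧ c < a) ∨ (c < a ∧ a < b)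

theorem num_iter {N : ℕ} {pos : α → ℕ} (hn : Num f N pos) (x : α) (k : ℕ) :
    ∃ q, pos (f^[k] x) + q * N = pos x + k := by
  induction k with
  | zero => exact ⟨0, by simp⟩
  | succ k ih =>
    obtain ⟨q, hq⟩ := ih
    rw [Function.iterate_succ_apply']
    rcases hn.step (f^[k] x) with h1 | ⟨h1, h2⟩
    · exact ⟨q, by omega⟩
    · refine ⟨q + 1, ?_⟩
      rw [h1, Nat.succ_mul]; omega

theorem before_iff_nc {N : ℕ} {pos : α → ℕ} (hn : Num f N pos) (h : ∀ x y : α, ∃ k : ℕ, f^[k] x = y)
    {x y z : α} (hxy : x ≠ y) (hxz : x ≠ z) (hyz : y ≠ z) :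
    before f x y z ↔ nc (pos x) (pos y) (pos z) := by
  have dir : ∀ x y z : α, x ≠ y → x ≠ z → y ≠ z → before f x y z → nc (pos x) (pos y) (pos z) := by
    rintro x y z hxy hxz hyz ⟨k, hk, hk'⟩
    by_contra hnc
    -- the index of z
    have px := hn.lt x
    have py := hn.lt y
    have pz := hn.lt z
    have dxy : pos x ≠ pos y := fun e => hxy (hn.inj e)
    have dxz : pos x ≠ pos z := fun e => hxz (hn.inj e)
    have dyz : pos y ≠ pos z := fun e => hyz (hn.inj e)
    obtain ⟨q, hq⟩ := num_iter hn x k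
    rw [hk] at hq
    -- j = steps from x to z
    let j : ℕ := if pos x < pos z then pos z - pos x else N + pos z - pos x
    have hj : f^[j] x = z := by
      obtain ⟨q', hq'⟩ := num_iter hn x j
      have pj := hn.lt (f^[j] x)
      apply hn.inj
      simp only [j] at hq' pj ⊢
      split_ifs at hq' pj ⊢ with hc
      · have : q' = 0 := by
          by_contra hne
          have : N ≤ q' * N := Nat.le_mul_of_pos_left N (Nat.pos_of_ne_zero hne)
          omega
        subst this; omega
      · have h1 : q' ≤ 1 := by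
          by_contra hne
          have : 2 * N ≤ q' * N := Nat.mul_le_mul_right N (by omega)
          omega
        have h0 : q' ≠ 0 := by
          rintro rfl
          omega
        have : q' = 1 := by omega
        subst this; omega
    apply hk' j _ hj
    unfold nc at hnc
    have hqN : q = 0 ∨ N ≤ q * N := by
      rcases Nat.eq_zero_or_pos q with h0 | h0
      · exact Or.inl h0
      · exact Or.inr (Nat.le_mul_of_pos_left N h0)
    simp only [j]
    split_ifs with hc
    · rcases hqN with rfl | h1 <;> omega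
    · rcases hqN with rfl | h1 <;> omega
  constructor
  · exact dir x y z hxy hxz hyz
  · intro hnc
    by_contra hb
    rw [not_before_iff h hyz] at hb
    have := dir x z y hxz hxy hyz.symm hb
    unfold nc at hnc this
    omega

end cyc

/-! ## The interlacement numbers -/

section inter

variable {C : Type} {next : C × Bool → C × Bool}

/-- indicator of the arc from the passage `(m, true)` to the passage `(m, false)` -/
noncomputable def chi (next : C × Bool → C × Bool) (m : C) (z : C × Bool) : ℤ :=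
  if before next (m, true) z (m, false) then 1 else 0

noncomputable def dd (next : C × Bool → C × Bool) (a b : C) : ℤ :=
  if a = b then 0 else chi next a (b, false) - chi next a (b, true)

theorem dd_self (a : C) : dd next a a = 0 := by simp [dd]

theorem dd_ne {a b : C} (h : a ≠ b) : dd next a b = chi next a (b, false) - chi next a (b, true) := by
  simp [dd, h]

theorem chi_01 (m : C) (z : C × Bool) : chi next m z = 0 ∨ chi next m z = 1 := by
  unfold chi; split_ifs <;> simp

theorem dd_cases (a b : C) : dd next a b = 0 ∨ dd next a b = 1 ∨ dd next a b = -1 := by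
  by_cases h : a = b
  · simp [dd, h]
  · rw [dd_ne h]
    rcases chi_01 (next := next) a (b, false) with h1 | h1 <;>
    rcases chi_01 (next := next) a (b, true) with h2 | h2 <;> simp [h1, h2]

theorem chi_nc [Finite C] {N : ℕ} {pos : C × Bool → ℕ} (hn : Num next N pos)
    (h : ∀ x y : C × Bool, ∃ k : ℕ, next^[k] x = y) {m : C} {z : C × Bool}
    (hz : z.1 ≠ m) :
    chi next m z = if nc (pos (m, true)) (pos z) (pos (m, false)) then 1 else 0 := by
  unfold chi
  rw [before_iff_nc hn h]
  · rintro rfl; exact hz rfl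
  · simp
  · rintro rfl; exact hz rfl

theorem dd_antisymm [Finite C] (h : ∀ x y : C × Bool, ∃ k : ℕ, next^[k] x = y) (a b : C) :
    dd next a b = - dd next b a := by
  by_cases hab : a = b
  · subst hab; simp [dd_self]
  · obtain ⟨N, pos, hn, -⟩ := exists_num h (a, true)
    rw [dd_ne hab, dd_ne (Ne.symm hab), chi_nc hn h (by simpa using Ne.symm hab),
      chi_nc hn h (by simpa using Ne.symm hab), chi_nc hn h (by simpa using hab),
      chi_nc hn h (by simpa using hab)]
    have e1 : pos (a, true) ≠ pos (a, false) := fun e => by simpa using hn.inj e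
    have e2 : pos (b, true) ≠ pos (b, false) := fun e => by simpa using hn.inj e
    have e3 : ∀ s t, pos (a, s) ≠ pos (b, t) := fun s t e => hab (by
      have := hn.inj e
      exact (Prod.mk.inj this).1)
    have f1 := e3 true true
    have f2 := e3 true false
    have f3 := e3 false true
    have f4 := e3 false false
    unfold nc
    split_ifs <;> omega

end inter

/-! ## Planarity: winding numbers -/

section planar

variable {C : Type} {next : C × Bool → C × Bool}

theorem next_bij [Finite C] (h : ∀ x y : C × Bool, ∃ k : ℕ, next^[k] x = y) :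
    Function.Bijective next := by
  have hs : Function.Surjective next := by
    intro y
    obtain ⟨k, hk⟩ := h (next y) y
    refine ⟨next^[k] y, ?_⟩
    have h1 := Function.iterate_succ_apply' next k y
    rw [Function.iterate_succ_apply] at h1
    rw [← h1]
    exact hk
  exact ⟨Finite.injective_iff_surjective.2 hs, hs⟩

/-- side of an edge as an element of the set of regions -/
def reg (next : C × Bool → C × Bool) (x : C × Bool) (s : Bool) : Region next := Quot.mk _ (x, s)

theorem reg_ne (c : C) : reg next (next (c, true)) true = reg next (next (c, false)) false :=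
  Quot.sound ⟨c, Quadrant.ne⟩
theorem reg_nw (c : C) : reg next (next (c, false)) true = reg next (c, true) true :=
  Quot.sound ⟨c, Quadrant.nw⟩
theorem reg_sw (c : C) : reg next (c, true) false = reg next (c, false) true :=
  Quot.sound ⟨c, Quadrant.sw⟩
theorem reg_se (c : C) : reg next (c, false) false = reg next (next (c, true)) false :=
  Quot.sound ⟨c, Quadrant.se⟩

theorem winding [Finite C] [Nonempty C] (h1 : ∀ x y : C × Bool, ∃ k : ℕ, next^[k] x = y)
    (hp : Nat.card (Region next) = Nat.card C + 2) (z : C × Bool → ℚ)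
    (hz : ∀ c, z (c, true) + z (c, false) = z (next (c, true)) + z (next (c, false))) :
    ∃ a : Region next → ℚ, ∀ x, a (reg next x true) - a (reg next x false) = z x := by
  have := Fintype.ofFinite C
  have hfR : Finite (Region next) := by unfold Region; infer_instance
  have := Fintype.ofFinite (Region next)
  have hb := next_bij h1
  let δ : (Region next → ℚ) →ₗ[ℚ] (C × Bool → ℚ) :=
    { toFun := fun a x => a (reg next x true) - a (reg next x false)
      map_add' := by intro a b; funext x; simp only [Pi.add_apply]; ring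
      map_smul' := by intro r a; funext x; simp only [Pi.smul_apply, smul_eq_mul, RingHom.id_apply]; ring }
  let B : (C × Bool → ℚ) →ₗ[ℚ] (C → ℚ) :=
    { toFun := fun z c => z (c, true) + z (c, false) - (z (next (c, true)) + z (next (c, false)))
      map_add' := by intro a b; funext x; simp only [Pi.add_apply]; ring
      map_smul' := by intro r a; funext x; simp only [Pi.smul_apply, smul_eq_mul, RingHom.id_apply]; ring }
  let S : (C → ℚ) →ₗ[ℚ] ℚ :=
    { toFun := fun y => ∑ c, y c
      map_add' := by intro a b; simp [Finset.sum_add_distrib]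
      map_smul' := by intro r a; simp [Finset.mul_sum] }
  -- composition zero
  have hle : LinearMap.range δ ≤ LinearMap.ker B := by
    rintro _ ⟨a, rfl⟩
    rw [LinearMap.mem_ker]
    funext c
    change (a (reg next (c, true) true) - a (reg next (c, true) false)) +
      (a (reg next (c, false) true) - a (reg next (c, false) false)) -
      ((a (reg next (next (c, true)) true) - a (reg next (next (c, true)) false)) +
      (a (reg next (next (c, false)) true) - a (reg next (next (c, false)) false))) = 0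
    rw [reg_ne, reg_nw, reg_sw, reg_se]
    ring
  -- kernel of δ
  have hker : Module.finrank ℚ (LinearMap.ker δ) ≤ 1 := by
    obtain ⟨c0⟩ := ‹Nonempty C›
    have hconst : ∀ a ∈ LinearMap.ker δ, ∀ r, a r = a (reg next (c0, true) true) := by
      intro a ha r
      have h0 : ∀ x, a (reg next x true) = a (reg next x false) := by
        intro x
        have := congrFun (LinearMap.mem_ker.1 ha) x
        change a (reg next x true) - a (reg next x false) = 0 at this
        linarith
      have hstep : ∀ x, a (reg next (next x) true) = a (reg next x true) := by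
        rintro ⟨c, b⟩
        cases b with
        | true =>
          rw [reg_ne, ← h0, reg_nw]
        | false =>
          rw [reg_nw, h0, reg_sw]
      have hit : ∀ k x, a (reg next (next^[k] x) true) = a (reg next x true) := by
        intro k
        induction k with
        | zero => intro x; rfl
        | succ k ih => intro x; rw [Function.iterate_succ_apply, ih, hstep]
      induction r using Quot.ind with
      | mk xs =>
        obtain ⟨x, s⟩ := xs
        obtain ⟨k, hk⟩ := h1 (c0, true) x
        have h2 := hit k (c0, true)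
        rw [hk] at h2
        cases s with
        | true => exact h2
        | false => exact (h0 x).symm.trans h2
    let ev : LinearMap.ker δ →ₗ[ℚ] ℚ :=
      { toFun := fun a => a.1 (reg next (c0, true) true)
        map_add' := by intro a b; rfl
        map_smul' := by intro r a; rfl }
    have hinj : Function.Injective ev := by
      intro a b hab
      apply Subtype.ext
      funext r
      rw [hconst a.1 a.2 r, hconst b.1 b.2 r]
      exact hab
    have := LinearMap.finrank_le_finrank_of_injective hinj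
    simpa using this
  -- range of B
  have hrB : LinearMap.ker S ≤ LinearMap.range B := by
    obtain ⟨c0⟩ := ‹Nonempty C›
    have hB : ∀ u : C × Bool, B (Pi.single (next u) 1) =
        Pi.single (next u).1 1 - Pi.single u.1 1 := by
      intro u
      funext c
      change (Pi.single (next u) (1 : ℚ) : C × Bool → ℚ) (c, true) +
        (Pi.single (next u) (1 : ℚ) : C × Bool → ℚ) (c, false) -
        ((Pi.single (next u) (1 : ℚ) : C × Bool → ℚ) (next (c, true)) +
        (Pi.single (next u) (1 : ℚ) : C × Bool → ℚ) (next (c, false))) = _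
      simp only [Pi.single_apply, Pi.sub_apply, hb.1.eq_iff]
      obtain ⟨d, b⟩ := u
      generalize next (d, b) = w
      obtain ⟨d', b'⟩ := w
      simp only [Prod.mk.injEq]
      congr 1
      · by_cases hc : c = d' <;> cases b' <;> simp [hc]
      · by_cases hc : c = d <;> cases b <;> simp [hc]
    have hk : ∀ k : ℕ, (Pi.single (next^[k] (c0, true)).1 (1 : ℚ) : C → ℚ) - Pi.single c0 1 ∈
        LinearMap.range B := by
      intro k
      induction k with
      | zero => simp
      | succ k ih =>
        rw [Function.iterate_succ_apply']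
        have h3 : B (Pi.single (next (next^[k] (c0, true))) 1) ∈ LinearMap.range B := ⟨_, rfl⟩
        rw [hB] at h3
        have := Submodule.add_mem _ h3 ih
        simpa using this
    have hall : ∀ c : C, (Pi.single c (1 : ℚ) : C → ℚ) - Pi.single c0 1 ∈ LinearMap.range B := by
      intro c
      obtain ⟨k, hk'⟩ := h1 (c0, true) (c, true)
      have := hk k
      rwa [hk'] at this
    intro y hy
    have hy' : ∑ c, y c = 0 := LinearMap.mem_ker.1 hy
    have : y = ∑ c, y c • ((Pi.single c (1 : ℚ) : C → ℚ) - Pi.single c0 1) := by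
      funext d
      simp only [smul_sub, Finset.sum_sub_distrib, Pi.sub_apply, Finset.sum_apply, Pi.smul_apply,
        smul_eq_mul, ← Finset.sum_mul, hy', zero_mul, sub_zero]
      simp [Pi.single_apply]
    rw [this]
    exact Submodule.sum_mem _ fun c _ => Submodule.smul_mem _ _ (hall c)
  have hS : Module.finrank ℚ (LinearMap.ker S) + 1 = Fintype.card C := by
    have hsurj : Function.Surjective S := by
      obtain ⟨c0⟩ := ‹Nonempty C›
      intro r
      refine ⟨Pi.single c0 r, ?_⟩
      change ∑ c, (Pi.single c0 r : C → ℚ) c = r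
      simp
    have h2 := LinearMap.finrank_range_add_finrank_ker S
    rw [LinearMap.range_eq_top.2 hsurj] at h2
    simp only [finrank_top, Module.finrank_self, Module.finrank_fintype_fun_eq_card] at h2
    omega
  have h2 := LinearMap.finrank_range_add_finrank_ker B
  have h3 := LinearMap.finrank_range_add_finrank_ker δ
  have h4 := Submodule.finrank_mono hrB
  rw [Module.finrank_fintype_fun_eq_card, Fintype.card_prod, Fintype.card_bool] at h2
  rw [Module.finrank_fintype_fun_eq_card, ← Nat.card_eq_fintype_card, hp,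
    Nat.card_eq_fintype_card] at h3
  have heq : LinearMap.range δ = LinearMap.ker B := by
    apply Submodule.eq_of_le_of_finrank_le hle
    omega
  have hzB : z ∈ LinearMap.ker B := by
    rw [LinearMap.mem_ker]
    funext c
    change z (c, true) + z (c, false) - (z (next (c, true)) + z (next (c, false))) = 0
    rw [hz c]; ring
  rw [← heq] at hzB
  obtain ⟨a, ha⟩ := hzB
  exact ⟨a, fun x => congrFun ha x⟩

end planar

section pairing

variable {C : Type} {next : C × Bool → C × Bool}

theorem pairing [Fintype C] [Nonempty C] (h1 : ∀ x y : C × Bool, ∃ k : ℕ, next^[k] x = y)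
    (hp : Nat.card (Region next) = Nat.card C + 2) (z w : C × Bool → ℚ)
    (hz : ∀ c, z (c, true) + z (c, false) = z (next (c, true)) + z (next (c, false)))
    (hw : ∀ c, w (c, true) + w (c, false) = w (next (c, true)) + w (next (c, false))) :
    ∑ c, (w (c, true) * (z (c, true) + 2 * z (c, false)) + w (c, false) * z (c, false)
      - w (next (c, true)) * z (next (c, true))
      - w (next (c, false)) * (z (c, true) + z (c, false) + z (next (c, true)))) = 0 := by
  obtain ⟨a, ha⟩ := winding h1 hp z hz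
  let g : C × Bool → ℚ := fun x => w x * (a (reg next x true) + a (reg next x false))
  have hsum : ∑ x, g (next x) = ∑ x, g x := (next_bij h1).sum_comp g
  rw [Fintype.sum_prod_type, Fintype.sum_prod_type] at hsum
  simp only [Fintype.sum_bool] at hsum
  have h0 : ∑ c, ((g (c, true) + g (c, false)) - (g (next (c, true)) + g (next (c, false)))) = 0 := by
    rw [Finset.sum_sub_distrib, hsum, sub_self]
  rw [← h0]
  refine Finset.sum_congr rfl fun c _ => ?_
  simp only [g]
  have e1 := ha (c, true)
  have e2 := ha (c, false)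
  have e3 := ha (next (c, true))
  have e4 := ha (next (c, false))
  rw [reg_ne] at e3 ⊢
  rw [reg_nw] at e4 ⊢
  rw [reg_sw] at e1 ⊢
  rw [reg_se] at e2 ⊢
  set NW := a (reg next (c, true) true)
  set SW := a (reg next (c, false) true)
  set SE := a (reg next (next (c, true)) false)
  set NE := a (reg next (next (c, false)) false)
  have f1 : z (c, true) = NW - SW := e1.symm
  have f2 : z (c, false) = SW - SE := e2.symm
  have f3 : z (next (c, true)) = NE - SE := e3.symm
  have f4 : z (next (c, false)) = NW - NE := e4.symm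
  rw [f1, f2, f3]
  linear_combination (-2 * SE) * hw c

/-- indicator of the edges of the arc from `(m, true)` to `(m, false)` -/
noncomputable def zf (next : C × Bool → C × Bool) (m : C) (x : C × Bool) : ℚ :=
  if x = (m, false) then 1 else if x = (m, true) then 0 else chi next m x

theorem zf_other {m : C} {x : C × Bool} (hx : x.1 ≠ m) : zf next m x = chi next m x := by
  unfold zf
  rw [if_neg, if_neg]
  · rintro rfl; exact hx rfl
  · rintro rfl; exact hx rfl

theorem zf_T (m : C) : zf next m (m, true) = 0 := by simp [zf]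
theorem zf_F (m : C) : zf next m (m, false) = 1 := by simp [zf]

theorem zf_num [Finite C] {N : ℕ} {pos : C × Bool → ℕ} (hn : Num next N pos)
    (h : ∀ x y : C × Bool, ∃ k : ℕ, next^[k] x = y) {m : C} (h0 : pos (m, true) = 0)
    (x : C × Bool) :
    zf next m x = if 0 < pos x ∧ pos x ≤ pos (m, false) then 1 else 0 := by
  have hP : pos (m, false) ≠ 0 := by
    rw [← h0]; intro e; simpa using hn.inj e
  by_cases hx : x.1 = m
  · obtain ⟨c, b⟩ := x
    simp only at hx
    subst hx
    cases b with
    | true => rw [zf_T, h0]; simp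
    | false =>
      rw [zf_F, if_pos]
      exact ⟨Nat.pos_of_ne_zero hP, le_rfl⟩
  · rw [zf_other hx, chi_nc hn h hx, h0]
    have hne : pos x ≠ pos (m, false) := by
      intro e
      have := hn.inj e
      exact hx (by rw [this])
    have hne0 : pos x ≠ 0 := by
      rw [← h0]
      intro e
      have := hn.inj e
      exact hx (by rw [this])
    unfold nc
    split_ifs with h1 h2 h2
    · simp
    · exact absurd h1 (by omega)
    · exact absurd h1 (by omega)
    · simp

theorem zf_next [Finite C] (h : ∀ x y : C × Bool, ∃ k : ℕ, next^[k] x = y) {m : C}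
    {x : C × Bool} (hx : x.1 ≠ m) : zf next m (next x) = zf next m x := by
  obtain ⟨N, pos, hn, h0⟩ := exists_num h (m, true)
  rw [zf_num hn h h0, zf_num hn h h0]
  have hne : pos x ≠ pos (m, false) := by
    intro e
    have := hn.inj e
    exact hx (by rw [this])
  have hne0 : pos x ≠ 0 := by
    rw [← h0]
    intro e
    have := hn.inj e
    exact hx (by rw [this])
  have hs := hn.step x
  have hP := hn.lt (m, false)
  congr 1
  apply propext
  constructor <;> intro h2 <;> omega

theorem zf_next_T [Finite C] (h : ∀ x y : C × Bool, ∃ k : ℕ, next^[k] x = y) (m : C) :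
    zf next m (next (m, true)) = 1 := by
  obtain ⟨N, pos, hn, h0⟩ := exists_num h (m, true)
  rw [zf_num hn h h0]
  have hP0 : pos (m, false) ≠ 0 := by
    rw [← h0]; intro e; simpa using hn.inj e
  have hs := hn.step (m, true)
  have hP := hn.lt (m, false)
  rw [if_pos]
  omega

theorem zf_next_F [Finite C] (h : ∀ x y : C × Bool, ∃ k : ℕ, next^[k] x = y) (m : C) :
    zf next m (next (m, false)) = 0 := by
  obtain ⟨N, pos, hn, h0⟩ := exists_num h (m, true)
  rw [zf_num hn h h0]
  have hP0 : pos (m, false) ≠ 0 := by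
    rw [← h0]; intro e; simpa using hn.inj e
  have hs := hn.step (m, false)
  rw [if_neg]
  omega

theorem zf_balanced [Finite C] (h : ∀ x y : C × Bool, ∃ k : ℕ, next^[k] x = y) (m c : C) :
    zf next m (c, true) + zf next m (c, false) =
      zf next m (next (c, true)) + zf next m (next (c, false)) := by
  by_cases hc : c = m
  · subst hc
    rw [zf_T, zf_F, zf_next_T h, zf_next_F h]; ring
  · rw [zf_next h (by simpa using hc), zf_next h (by simpa using hc)]

/-- index relation -/
theorem index_rel [Fintype C] [Nonempty C] (h : ∀ x y : C × Bool, ∃ k : ℕ, next^[k] x = y)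
    (hp : Nat.card (Region next) = Nat.card C + 2) (m : C) : ∑ b, dd next m b = 0 := by
  have := pairing h hp (zf next m) (fun _ => 1) (zf_balanced h m) (by intro c; ring)
  have h2 : ∑ c, (2 * ((dd next m c : ℤ) : ℚ)) = 0 := by
    rw [← this]
    refine Finset.sum_congr rfl fun c _ => ?_
    by_cases hc : c = m
    · subst hc
      rw [dd_self, zf_T, zf_F, zf_next_T h]; simp; ring
    · rw [zf_next h (by simpa using hc), zf_other (by simpa using hc), zf_other (by simpa using hc),
        dd_ne (Ne.symm hc)]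
      push_cast
      ring
  rw [← Finset.mul_sum] at h2
  have h3 : ((∑ b, dd next m b : ℤ) : ℚ) = 0 := by push_cast; linarith
  exact_mod_cast h3

/-- pair relation -/
theorem pair_rel [Fintype C] [Nonempty C] (h : ∀ x y : C × Bool, ∃ k : ℕ, next^[k] x = y)
    (hp : Nat.card (Region next) = Nat.card C + 2) {p r : C} (hpr : p ≠ r) :
    ∑ c ∈ (univ.erase p).erase r, (chi next p (c, true) * chi next r (c, false) -
      chi next p (c, false) * chi next r (c, true)) = dd next p r := by
  have := pairing h hp (zf next r) (zf next p) (zf_balanced h r) (zf_balanced h p)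
  rw [← Finset.add_sum_erase _ _ (Finset.mem_univ p),
    ← Finset.add_sum_erase _ _ (show r ∈ univ.erase p by simp [hpr.symm])] at this
  rw [zf_T p, zf_F p, zf_next_T h p, zf_next_F h p, zf_T r, zf_F r, zf_next_T h r,
    zf_next (m := r) (x := (p, true)) h (by simpa using hpr),
    zf_next (m := p) (x := (r, true)) h (by simpa using hpr.symm),
    zf_next (m := p) (x := (r, false)) h (by simpa using hpr.symm),
    zf_other (m := r) (x := (p, true)) (by simpa using hpr),
    zf_other (m := r) (x := (p, false)) (by simpa using hpr),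
    zf_other (m := p) (x := (r, true)) (by simpa using hpr.symm),
    zf_other (m := p) (x := (r, false)) (by simpa using hpr.symm)] at this
  have h2 : ∑ c ∈ (univ.erase p).erase r, (zf next p (c, true) * (zf next r (c, true) +
      2 * zf next r (c, false)) + zf next p (c, false) * zf next r (c, false)
      - zf next p (next (c, true)) * zf next r (next (c, true))
      - zf next p (next (c, false)) * (zf next r (c, true) + zf next r (c, false) +
        zf next r (next (c, true)))) =
      2 * ∑ c ∈ (univ.erase p).erase r, ((chi next p (c, true) * chi next r (c, false) -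
      chi next p (c, false) * chi next r (c, true) : ℤ) : ℚ) := by
    rw [Finset.mul_sum]
    refine Finset.sum_congr rfl fun c hc => ?_
    simp only [Finset.mem_erase, Finset.mem_univ, and_true] at hc
    obtain ⟨hcr, hcp⟩ := hc
    rw [zf_next (m := r) (x := (c, true)) h (by simpa using hcr),
      zf_next (m := p) (x := (c, true)) h (by simpa using hcp),
      zf_next (m := p) (x := (c, false)) h (by simpa using hcp),
      zf_other (m := r) (x := (c, true)) (by simpa using hcr),
      zf_other (m := r) (x := (c, false)) (by simpa using hcr),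
      zf_other (m := p) (x := (c, true)) (by simpa using hcp),
      zf_other (m := p) (x := (c, false)) (by simpa using hcp)]
    push_cast
    ring
  rw [h2] at this
  have hd1 := dd_ne (next := next) hpr
  have hd2 := dd_ne (next := next) hpr.symm
  have hd3 := dd_antisymm h p r
  have h3 : ((∑ c ∈ (univ.erase p).erase r, (chi next p (c, true) * chi next r (c, false) -
      chi next p (c, false) * chi next r (c, true)) : ℤ) : ℚ) = ((dd next p r : ℤ) : ℚ) := by
    push_cast at this ⊢
    have e1 : ((dd next p r : ℤ) : ℚ) = (chi next p (r, false) : ℚ) - (chi next p (r, true) : ℚ) := by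
      rw [hd1]; push_cast; ring
    have e2 : ((dd next p r : ℤ) : ℚ) = -((chi next r (p, false) : ℚ) - (chi next r (p, true) : ℚ)) := by
      rw [hd3, hd2]; push_cast; ring
    linarith
  exact_mod_cast h3

end pairing

/-! ## The cubic function -/

section algebra

def fT {C : Type} (D : C → C → ℤ) (ε : C → ℤ) (a b c : C) : ℤ :=
  D a b ^ 2 * D b c ^ 2 * D c a ^ 2 * (ε a * ε b * ε c)

def fQ {C : Type} (D : C → C → ℤ) (ε : C → ℤ) (m a c : C) : ℤ :=
  (1 - D a c ^ 2) * ε m * (D m a ^ 2 * D m c ^ 2 * (ε a * ε c) + D m a * D m c)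

/-- forty-eight times the invariant -/
def val {C : Type} [Fintype C] (D : C → C → ℤ) (ε : C → ℤ) : ℤ :=
  ∑ a, ∑ b, ∑ c, (2 * fT D ε a b c + 3 * fQ D ε a b c)

theorem val_reindex {C C' : Type} [Fintype C] [Fintype C'] (e : C ≃ C') (D : C' → C' → ℤ)
    (ε : C' → ℤ) : val D ε = val (fun a b => D (e a) (e b)) (fun a => ε (e a)) := by
  unfold val
  rw [← e.sum_comp]
  refine Finset.sum_congr rfl fun a _ => ?_
  rw [← e.sum_comp]
  refine Finset.sum_congr rfl fun b _ => ?_
  rw [← e.sum_comp]
  rfl

theorem sum3_split {α β : Type} [Fintype α] [Fintype β] (F : α ⊕ β → α ⊕ β → α ⊕ β → ℤ) :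
    ∑ x, ∑ y, ∑ z, F x y z =
      ∑ a : α, ∑ b : α, ∑ c : α, F (Sum.inl a) (Sum.inl b) (Sum.inl c) +
      ∑ a : α, ∑ b : α, ∑ s : β, (F (Sum.inl a) (Sum.inl b) (Sum.inr s) +
        F (Sum.inl a) (Sum.inr s) (Sum.inl b) + F (Sum.inr s) (Sum.inl a) (Sum.inl b)) +
      ∑ a : α, ∑ s : β, ∑ t : β, (F (Sum.inl a) (Sum.inr s) (Sum.inr t) +
        F (Sum.inr s) (Sum.inl a) (Sum.inr t) + F (Sum.inr s) (Sum.inr t) (Sum.inl a)) +
      ∑ s : β, ∑ t : β, ∑ u : β, F (Sum.inr s) (Sum.inr t) (Sum.inr u) := by
  have e1 : ∑ a : α, ∑ s : β, ∑ b : α, F (Sum.inl a) (Sum.inr s) (Sum.inl b) =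
      ∑ a : α, ∑ b : α, ∑ s : β, F (Sum.inl a) (Sum.inr s) (Sum.inl b) :=
    Finset.sum_congr rfl fun a _ => Finset.sum_comm
  have e2 : ∑ s : β, ∑ a : α, ∑ b : α, F (Sum.inr s) (Sum.inl a) (Sum.inl b) =
      ∑ a : α, ∑ b : α, ∑ s : β, F (Sum.inr s) (Sum.inl a) (Sum.inl b) := by
    rw [Finset.sum_comm]
    exact Finset.sum_congr rfl fun a _ => Finset.sum_comm
  have e3 : ∑ s : β, ∑ a : α, ∑ t : β, F (Sum.inr s) (Sum.inl a) (Sum.inr t) =
      ∑ a : α, ∑ s : β, ∑ t : β, F (Sum.inr s) (Sum.inl a) (Sum.inr t) := Finset.sum_comm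
  have e4 : ∑ s : β, ∑ t : β, ∑ a : α, F (Sum.inr s) (Sum.inr t) (Sum.inl a) =
      ∑ a : α, ∑ s : β, ∑ t : β, F (Sum.inr s) (Sum.inr t) (Sum.inl a) := by
    rw [Finset.sum_comm (s := (Finset.univ : Finset α))]
    exact Finset.sum_congr rfl fun s _ => Finset.sum_comm
  simp only [Fintype.sum_sum_type, Finset.sum_add_distrib]
  rw [e1, e2, e3, e4]
  ring

/-- adding an isolated vertex -/
theorem val_kink {C : Type} [Fintype C] (D : C ⊕ Unit → C ⊕ Unit → ℤ) (ε : C ⊕ Unit → ℤ)
    (h1 : ∀ x, D x (Sum.inr ()) = 0) (h2 : ∀ x, D (Sum.inr ()) x = 0) :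
    val D ε = val (fun a b => D (Sum.inl a) (Sum.inl b)) (fun a => ε (Sum.inl a)) := by
  unfold val
  rw [sum3_split]
  simp [fT, fQ, h1, h2]

/-- adding a pair of opposite twins -/
theorem val_twin {C : Type} [Fintype C] (D : C ⊕ Bool → C ⊕ Bool → ℤ) (ε : C ⊕ Bool → ℤ)
    (ρ : C → ℤ) (θ η : ℤ) (hρ : ∀ a, ρ a = 0 ∨ ρ a = 1 ∨ ρ a = -1) (hη : η ^ 2 = 1)
    (h1 : ∀ a, D (Sum.inr true) (Sum.inl a) = ρ a)
    (h2 : ∀ a, D (Sum.inr false) (Sum.inl a) = - ρ a)
    (h3 : ∀ a, D (Sum.inl a) (Sum.inr true) = - ρ a)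
    (h4 : ∀ a, D (Sum.inl a) (Sum.inr false) = ρ a)
    (h5 : D (Sum.inr true) (Sum.inr false) = θ)
    (h6 : D (Sum.inr false) (Sum.inr true) = - θ)
    (h7 : ∀ s, D (Sum.inr s) (Sum.inr s) = 0)
    (h8 : ε (Sum.inr true) = η) (h9 : ε (Sum.inr false) = - η) :
    val D ε = val (fun a b => D (Sum.inl a) (Sum.inl b)) (fun a => ε (Sum.inl a)) := by
  unfold val
  rw [sum3_split]
  have g2 : ∀ a b : C, ∑ s : Bool, (
      (2 * fT D ε (Sum.inl a) (Sum.inl b) (Sum.inr s) + 3 * fQ D ε (Sum.inl a) (Sum.inl b) (Sum.inr s)) +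
      (2 * fT D ε (Sum.inl a) (Sum.inr s) (Sum.inl b) + 3 * fQ D ε (Sum.inl a) (Sum.inr s) (Sum.inl b)) +
      (2 * fT D ε (Sum.inr s) (Sum.inl a) (Sum.inl b) + 3 * fQ D ε (Sum.inr s) (Sum.inl a) (Sum.inl b)))
      = 0 := by
    intro a b
    simp only [Fintype.sum_bool, fT, fQ, h1, h2, h3, h4, h8, h9]
    ring
  have g1 : ∀ a : C, ∑ s : Bool, ∑ t : Bool, (
      (2 * fT D ε (Sum.inl a) (Sum.inr s) (Sum.inr t) + 3 * fQ D ε (Sum.inl a) (Sum.inr s) (Sum.inr t)) +
      (2 * fT D ε (Sum.inr s) (Sum.inl a) (Sum.inr t) + 3 * fQ D ε (Sum.inr s) (Sum.inl a) (Sum.inr t)) +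
      (2 * fT D ε (Sum.inr s) (Sum.inr t) (Sum.inl a) + 3 * fQ D ε (Sum.inr s) (Sum.inr t) (Sum.inl a)))
      = 0 := by
    intro a
    simp only [Fintype.sum_bool, fT, fQ, h1, h2, h3, h4, h5, h6, h7, h8, h9]
    have hr : ρ a ^ 3 = ρ a := by rcases hρ a with h | h | h <;> rw [h] <;> norm_num
    rcases hρ a with h | h | h <;> rw [h] <;> ring_nf <;> simp [hη]
  have g0 : ∑ s : Bool, ∑ t : Bool, ∑ u : Bool,
      (2 * fT D ε (Sum.inr s) (Sum.inr t) (Sum.inr u) + 3 * fQ D ε (Sum.inr s) (Sum.inr t) (Sum.inr u))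
      = 0 := by
    simp only [Fintype.sum_bool, fT, fQ, h5, h6, h7, h8, h9]
    ring
  rw [g0]
  simp only [g1, g2, Finset.sum_const_zero, add_zero]
  rfl

end algebra

/-! ## Algebra of the third move -/

section algebra3

/-- contribution of the triples with one index outside and two indices in `Fin 3` -/
def gone (K : Fin 3 → Fin 3 → ℤ) (y : Fin 3 → ℤ) (ε : Fin 3 → ℤ) (ee : ℤ) (s t : Fin 3) : ℤ :=
  2 * (y s ^ 2 * K s t ^ 2 * (-y t) ^ 2 * (ee * ε s * ε t)) +
  3 * ((1 - K s t ^ 2) * ee * (y s ^ 2 * y t ^ 2 * (ε s * ε t) + y s * y t)) +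
  (2 * ((-y s) ^ 2 * y t ^ 2 * K t s ^ 2 * (ε s * ee * ε t)) +
  3 * ((1 - y t ^ 2) * ε s * ((-y s) ^ 2 * K s t ^ 2 * (ee * ε t) + (-y s) * K s t))) +
  (2 * (K s t ^ 2 * (-y t) ^ 2 * y s ^ 2 * (ε s * ε t * ee)) +
  3 * ((1 - (-y t) ^ 2) * ε s * (K s t ^ 2 * (-y s) ^ 2 * (ε t * ee) + K s t * (-y s))))

/-- contribution of the triples with all indices in `Fin 3` -/
def gzero (K : Fin 3 → Fin 3 → ℤ) (ε : Fin 3 → ℤ) (s t u : Fin 3) : ℤ :=
  2 * (K s t ^ 2 * K t u ^ 2 * K u s ^ 2 * (ε s * ε t * ε u)) +
  3 * ((1 - K t u ^ 2) * ε s * (K s t ^ 2 * K s u ^ 2 * (ε t * ε u) + K s t * K s u))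

def Km (κ w : ℤ) (e : Fin 3 → ℤ) : Fin 3 → Fin 3 → ℤ
  | 0, 1 => (-(e 0 * e 1 * (κ + w))) / 2
  | 1, 0 => (e 0 * e 1 * (κ + w)) / 2
  | 0, 2 => (-(κ * e 0 * e 2 - w * e 0 * e 1)) / 2
  | 2, 0 => (κ * e 0 * e 2 - w * e 0 * e 1) / 2
  | 1, 2 => (-(κ * e 1 * e 2 + w * e 0 * e 1)) / 2
  | 2, 1 => (κ * e 1 * e 2 + w * e 0 * e 1) / 2
  | _, _ => 0

def yv (e : Fin 3 → ℤ) (x1 x2 x3 : ℤ) : Fin 3 → ℤ
  | 0 => e 0 * (x1 - x2)
  | 1 => e 1 * (x1 - x3)
  | 2 => e 2 * (x2 - x3)

def sg (b : Bool) : ℤ := if b then 1 else -1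
def bz (b : Bool) : ℤ := if b then 1 else 0

def ev (a b c : Bool) : Fin 3 → ℤ
  | 0 => sg a
  | 1 => sg b
  | 2 => sg c

theorem gone_diff : ∀ k w a b c d x1 x2 x3 : Bool,
    (∑ s : Fin 3, ∑ t : Fin 3, gone (Km (sg k) (sg w) (ev a b c))
      (yv (ev a b c) (bz x1) (bz x2) (bz x3)) (ev a b c) (sg d) s t) -
    (∑ s : Fin 3, ∑ t : Fin 3, gone (Km (sg k) (-sg w) (ev a b c))
      (yv (ev a b c) (bz x1) (bz x2) (bz x3)) (ev a b c) (sg d) s t) =
    -12 * sg w * sg a * sg b * ((bz x2 - bz x1) * (1 - (bz x1 - bz x3) ^ 2)) := by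
  simp only [Fin.sum_univ_three]
  decide +kernel

theorem gzero_diff : ∀ k w a b c : Bool,
    (∑ s : Fin 3, ∑ t : Fin 3, ∑ u : Fin 3, gzero (Km (sg k) (sg w) (ev a b c)) (ev a b c) s t u) -
    (∑ s : Fin 3, ∑ t : Fin 3, ∑ u : Fin 3, gzero (Km (sg k) (-sg w) (ev a b c)) (ev a b c) s t u) =
    12 * sg w * sg a * sg b * (if a = b ∧ b = c then sg k * sg a else 0) := by
  simp only [Fin.sum_univ_three]
  decide +kernel

end algebra3

section algebra3b

theorem val_r3 {C : Type} [Fintype C] (D D' : C ⊕ Fin 3 → C ⊕ Fin 3 → ℤ) (ε : C ⊕ Fin 3 → ℤ)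
    (k w a b c : Bool) (X1 X2 X3 : C → Bool)
    (hε : ∀ i, ε (Sum.inr i) = ev a b c i) (hεe : ∀ e, ∃ d, ε (Sum.inl e) = sg d)
    (hll : ∀ e f, D (Sum.inl e) (Sum.inl f) = D' (Sum.inl e) (Sum.inl f))
    (hK : ∀ i j, D (Sum.inr i) (Sum.inr j) = Km (sg k) (sg w) (ev a b c) i j)
    (hK' : ∀ i j, D' (Sum.inr i) (Sum.inr j) = Km (sg k) (-sg w) (ev a b c) i j)
    (hy : ∀ e i, D (Sum.inl e) (Sum.inr i) = yv (ev a b c) (bz (X1 e)) (bz (X2 e)) (bz (X3 e)) i)
    (hy2 : ∀ e i, D (Sum.inr i) (Sum.inl e) = - yv (ev a b c) (bz (X1 e)) (bz (X2 e)) (bz (X3 e)) i)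
    (hy' : ∀ e i, D' (Sum.inl e) (Sum.inr i) = yv (ev a b c) (bz (X1 e)) (bz (X2 e)) (bz (X3 e)) i)
    (hy2' : ∀ e i, D' (Sum.inr i) (Sum.inl e) = - yv (ev a b c) (bz (X1 e)) (bz (X2 e)) (bz (X3 e)) i)
    (hM : ∑ e, ((bz (X2 e) - bz (X1 e)) * (1 - (bz (X1 e) - bz (X3 e)) ^ 2)) =
      if a = b ∧ b = c then sg k * sg a else 0) :
    val D ε = val D' ε := by
  unfold val
  rw [sum3_split, sum3_split]
  have e0 : ∀ x y z : C, (2 * fT D ε (Sum.inl x) (Sum.inl y) (Sum.inl z) +
      3 * fQ D ε (Sum.inl x) (Sum.inl y) (Sum.inl z)) =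
      (2 * fT D' ε (Sum.inl x) (Sum.inl y) (Sum.inl z) +
      3 * fQ D' ε (Sum.inl x) (Sum.inl y) (Sum.inl z)) := by
    intro x y z
    simp only [fT, fQ, hll]
  have e1 : ∀ (x y : C) (s : Fin 3), (2 * fT D ε (Sum.inl x) (Sum.inl y) (Sum.inr s) +
      3 * fQ D ε (Sum.inl x) (Sum.inl y) (Sum.inr s) +
      (2 * fT D ε (Sum.inl x) (Sum.inr s) (Sum.inl y) +
      3 * fQ D ε (Sum.inl x) (Sum.inr s) (Sum.inl y)) +
      (2 * fT D ε (Sum.inr s) (Sum.inl x) (Sum.inl y) +
      3 * fQ D ε (Sum.inr s) (Sum.inl x) (Sum.inl y))) =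
      (2 * fT D' ε (Sum.inl x) (Sum.inl y) (Sum.inr s) +
      3 * fQ D' ε (Sum.inl x) (Sum.inl y) (Sum.inr s) +
      (2 * fT D' ε (Sum.inl x) (Sum.inr s) (Sum.inl y) +
      3 * fQ D' ε (Sum.inl x) (Sum.inr s) (Sum.inl y)) +
      (2 * fT D' ε (Sum.inr s) (Sum.inl x) (Sum.inl y) +
      3 * fQ D' ε (Sum.inr s) (Sum.inl x) (Sum.inl y))) := by
    intro x y s
    simp only [fT, fQ, hll, hy, hy2, hy', hy2']
  have e2 : ∀ (x : C) (s t : Fin 3), (2 * fT D ε (Sum.inl x) (Sum.inr s) (Sum.inr t) +
      3 * fQ D ε (Sum.inl x) (Sum.inr s) (Sum.inr t) +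
      (2 * fT D ε (Sum.inr s) (Sum.inl x) (Sum.inr t) +
      3 * fQ D ε (Sum.inr s) (Sum.inl x) (Sum.inr t)) +
      (2 * fT D ε (Sum.inr s) (Sum.inr t) (Sum.inl x) +
      3 * fQ D ε (Sum.inr s) (Sum.inr t) (Sum.inl x))) =
      gone (Km (sg k) (sg w) (ev a b c)) (yv (ev a b c) (bz (X1 x)) (bz (X2 x)) (bz (X3 x)))
        (ev a b c) (ε (Sum.inl x)) s t := by
    intro x s t
    simp only [fT, fQ, hy, hy2, hK, hε, gone]
  have e2' : ∀ (x : C) (s t : Fin 3), (2 * fT D' ε (Sum.inl x) (Sum.inr s) (Sum.inr t) +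
      3 * fQ D' ε (Sum.inl x) (Sum.inr s) (Sum.inr t) +
      (2 * fT D' ε (Sum.inr s) (Sum.inl x) (Sum.inr t) +
      3 * fQ D' ε (Sum.inr s) (Sum.inl x) (Sum.inr t)) +
      (2 * fT D' ε (Sum.inr s) (Sum.inr t) (Sum.inl x) +
      3 * fQ D' ε (Sum.inr s) (Sum.inr t) (Sum.inl x))) =
      gone (Km (sg k) (-sg w) (ev a b c)) (yv (ev a b c) (bz (X1 x)) (bz (X2 x)) (bz (X3 x)))
        (ev a b c) (ε (Sum.inl x)) s t := by
    intro x s t
    simp only [fT, fQ, hy', hy2', hK', hε, gone]
  have e3 : ∀ s t u : Fin 3, (2 * fT D ε (Sum.inr s) (Sum.inr t) (Sum.inr u) +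
      3 * fQ D ε (Sum.inr s) (Sum.inr t) (Sum.inr u)) =
      gzero (Km (sg k) (sg w) (ev a b c)) (ev a b c) s t u := by
    intro s t u
    simp only [fT, fQ, hK, hε, gzero]
  have e3' : ∀ s t u : Fin 3, (2 * fT D' ε (Sum.inr s) (Sum.inr t) (Sum.inr u) +
      3 * fQ D' ε (Sum.inr s) (Sum.inr t) (Sum.inr u)) =
      gzero (Km (sg k) (-sg w) (ev a b c)) (ev a b c) s t u := by
    intro s t u
    simp only [fT, fQ, hK', hε, gzero]
  simp only [e0, e1, e2, e2', e3, e3']
  have g1 : ∀ x : C, (∑ s : Fin 3, ∑ t : Fin 3, gone (Km (sg k) (sg w) (ev a b c))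
      (yv (ev a b c) (bz (X1 x)) (bz (X2 x)) (bz (X3 x))) (ev a b c) (ε (Sum.inl x)) s t) -
      (∑ s : Fin 3, ∑ t : Fin 3, gone (Km (sg k) (-sg w) (ev a b c))
      (yv (ev a b c) (bz (X1 x)) (bz (X2 x)) (bz (X3 x))) (ev a b c) (ε (Sum.inl x)) s t) =
      -12 * sg w * sg a * sg b *
        ((bz (X2 x) - bz (X1 x)) * (1 - (bz (X1 x) - bz (X3 x)) ^ 2)) := by
    intro x
    obtain ⟨d, hd⟩ := hεe x
    rw [hd]
    exact gone_diff k w a b c d (X1 x) (X2 x) (X3 x)
  have g1s := Finset.sum_congr (rfl : (univ : Finset C) = univ) fun x (_ : x ∈ univ) => g1 x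
  rw [Finset.sum_sub_distrib, ← Finset.mul_sum, hM] at g1s
  have g0 := gzero_diff k w a b c
  linarith

end algebra3b

section triangle

variable {C : Type} {next : C × Bool → C × Bool}

theorem km_antisymm : ∀ (k w a b c : Bool) (i j : Fin 3),
    Km (sg k) (sg w) (ev a b c) i j = - Km (sg k) (sg w) (ev a b c) j i := by
  decide +kernel

theorem km_antisymm' : ∀ (k w a b c : Bool) (i j : Fin 3),
    Km (sg k) (- sg w) (ev a b c) i j = - Km (sg k) (- sg w) (ev a b c) j i := by
  decide +kernel

/-- numerical value of the interlacement number of two chords: sign `s`, position `u1` of the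
over-passage and `u2` of the under-passage of the first chord, and similarly for the second -/
noncomputable def dnum (s : Bool) (u1 u2 : ℕ) (t : Bool) (v1 v2 : ℕ) : ℤ :=
  (if nc (if s then u1 else u2) (if t then v2 else v1) (if s then u2 else u1) then 1 else 0) -
  (if nc (if s then u1 else u2) (if t then v1 else v2) (if s then u2 else u1) then 1 else 0)

theorem dd_dnum [Finite C] {N : ℕ} {pos : C × Bool → ℕ} (hn : Num next N pos)
    (h : ∀ x y : C × Bool, ∃ k : ℕ, next^[k] x = y) {a b : C} (hab : a ≠ b) (s t : Bool) :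
    dd next a b = dnum s (pos (a, s)) (pos (a, !s)) t (pos (b, t)) (pos (b, !t)) := by
  rw [dd_ne hab, chi_nc hn h (by simpa using hab.symm), chi_nc hn h (by simpa using hab.symm)]
  unfold dnum
  cases s <;> cases t <;> rfl

/-- the cluster positions of a triangle -/
structure TriPos (w m1 m2 : Bool) (A1 B1 A2 C2 B3 C3 : ℕ) : Prop where
  top : (w = true ∧ A1 = 0 ∧ B1 = 1) ∨ (w = false ∧ B1 = 0 ∧ A1 = 1)
  mid : (m1 = true ∧ C2 = A2 + 1) ∨ (m1 = false ∧ A2 = C2 + 1)
  bot : (m2 = true ∧ C3 = B3 + 1) ∨ (m2 = false ∧ B3 = C3 + 1)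
  a2 : 1 < A2
  c2 : 1 < C2
  b3 : 1 < B3
  c3 : 1 < C3
  n1 : A2 ≠ B3
  n2 : A2 ≠ C3
  n3 : C2 ≠ B3
  n4 : C2 ≠ C3

theorem km_01 (w sp sq sr : Bool) (A1 B1 A2 C2 B3 C3 : ℕ)
    (h : TriPos w (w == (sq == sr)) (w == (sp == sr)) A1 B1 A2 C2 B3 C3) :
    dnum sp A1 A2 sq B1 B3 = Km (sg (decide (A2 < B3))) (sg w) (ev sp sq sr) 0 1 := by
  obtain ⟨h1, h2, h3, h4, h5, h6, h7, n1, n2, n3, n4⟩ := h
  by_cases hk : A2 < B3
  · simp only [hk, decide_true]
    cases w <;> cases sp <;> cases sq <;> cases sr <;>
      simp [dnum, Km, ev, sg] at h1 h2 h3 ⊢ <;> unfold nc <;> split_ifs <;> omega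
  · simp only [hk, decide_false]
    cases w <;> cases sp <;> cases sq <;> cases sr <;>
      simp [dnum, Km, ev, sg] at h1 h2 h3 ⊢ <;> unfold nc <;> split_ifs <;> omega

theorem km_02 (w sp sq sr : Bool) (A1 B1 A2 C2 B3 C3 : ℕ)
    (h : TriPos w (w == (sq == sr)) (w == (sp == sr)) A1 B1 A2 C2 B3 C3) :
    dnum sp A1 A2 sr C2 C3 = Km (sg (decide (A2 < B3))) (sg w) (ev sp sq sr) 0 2 := by
  obtain ⟨h1, h2, h3, h4, h5, h6, h7, n1, n2, n3, n4⟩ := h
  by_cases hk : A2 < B3
  · simp only [hk, decide_true]
    cases w <;> cases sp <;> cases sq <;> cases sr <;>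
      simp [dnum, Km, ev, sg] at h1 h2 h3 ⊢ <;> unfold nc <;> split_ifs <;> omega
  · simp only [hk, decide_false]
    cases w <;> cases sp <;> cases sq <;> cases sr <;>
      simp [dnum, Km, ev, sg] at h1 h2 h3 ⊢ <;> unfold nc <;> split_ifs <;> omega

theorem km_12 (w sp sq sr : Bool) (A1 B1 A2 C2 B3 C3 : ℕ)
    (h : TriPos w (w == (sq == sr)) (w == (sp == sr)) A1 B1 A2 C2 B3 C3) :
    dnum sq B1 B3 sr C2 C3 = Km (sg (decide (A2 < B3))) (sg w) (ev sp sq sr) 1 2 := by
  obtain ⟨h1, h2, h3, h4, h5, h6, h7, n1, n2, n3, n4⟩ := h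
  by_cases hk : A2 < B3
  · simp only [hk, decide_true]
    cases w <;> cases sp <;> cases sq <;> cases sr <;>
      simp [dnum, Km, ev, sg] at h1 h2 h3 ⊢ <;> unfold nc <;> split_ifs <;> omega
  · simp only [hk, decide_false]
    cases w <;> cases sp <;> cases sq <;> cases sr <;>
      simp [dnum, Km, ev, sg] at h1 h2 h3 ⊢ <;> unfold nc <;> split_ifs <;> omega

theorem TriPos.flip {w m1 m2 : Bool} {A1 B1 A2 C2 B3 C3 : ℕ}
    (h : TriPos w m1 m2 A1 B1 A2 C2 B3 C3) : TriPos (!w) (!m1) (!m2) B1 A1 C2 A2 C3 B3 := by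
  obtain ⟨h1, h2, h3, h4, h5, h6, h7, n1, n2, n3, n4⟩ := h
  refine ⟨?_, ?_, ?_, h5, h4, h7, h6, n4, n3, n2, n1⟩
  · rcases h1 with ⟨a, b, c⟩ | ⟨a, b, c⟩ <;> simp [a, b, c]
  · rcases h2 with ⟨a, b⟩ | ⟨a, b⟩ <;> simp [a, b]
  · rcases h3 with ⟨a, b⟩ | ⟨a, b⟩ <;> simp [a, b]

theorem TriPos.flip_k {w m1 m2 : Bool} {A1 B1 A2 C2 B3 C3 : ℕ}
    (h : TriPos w m1 m2 A1 B1 A2 C2 B3 C3) : decide (C2 < C3) = decide (A2 < B3) := by
  obtain ⟨h1, h2, h3, h4, h5, h6, h7, n1, n2, n3, n4⟩ := h
  congr 1
  apply propext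
  omega

theorem sg_not (w : Bool) : sg (!w) = - sg w := by cases w <;> rfl

theorem beq_flip (w x : Bool) : (!w) = x → True := fun _ => trivial

theorem flip_m (w s t : Bool) : ((!w) == (s == t)) = !(w == (s == t)) := by
  cases w <;> cases s <;> cases t <;> rfl

/-- a position outside of the triangle -/
structure OutPos (A1 B1 A2 C2 B3 C3 T : ℕ) : Prop where
  t0 : 1 < T
  t1 : T ≠ A2
  t2 : T ≠ C2
  t3 : T ≠ B3
  t4 : T ≠ C3

theorem out_p (w m1 m2 sp : Bool) (A1 B1 A2 C2 B3 C3 T F : ℕ)
    (h : TriPos w m1 m2 A1 B1 A2 C2 B3 C3) (hT : OutPos A1 B1 A2 C2 B3 C3 T)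
    (hF : OutPos A1 B1 A2 C2 B3 C3 F) (hTF : T ≠ F) :
    dnum true T F sp A1 A2 = sg sp * (bz (decide (nc F A1 T)) - bz (decide (nc F A2 T))) := by
  obtain ⟨h1, h2, h3, h4, h5, h6, h7, n1, n2, n3, n4⟩ := h
  obtain ⟨t0, t1, t2, t3, t4⟩ := hT
  obtain ⟨f0, f1, f2, f3, f4⟩ := hF
  have hA1 : A1 ≤ 1 := by omega
  cases sp <;> simp only [dnum, sg, bz, decide_eq_true_eq, if_true, Bool.false_eq_true, if_false] <;>
    unfold nc <;> split_ifs <;> omega

theorem out_q (w m1 m2 sq : Bool) (A1 B1 A2 C2 B3 C3 T F : ℕ)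
    (h : TriPos w m1 m2 A1 B1 A2 C2 B3 C3) (hT : OutPos A1 B1 A2 C2 B3 C3 T)
    (hF : OutPos A1 B1 A2 C2 B3 C3 F) (hTF : T ≠ F) :
    dnum true T F sq B1 B3 = sg sq * (bz (decide (nc F A1 T)) - bz (decide (nc F B3 T))) := by
  obtain ⟨h1, h2, h3, h4, h5, h6, h7, n1, n2, n3, n4⟩ := h
  obtain ⟨t0, t1, t2, t3, t4⟩ := hT
  obtain ⟨f0, f1, f2, f3, f4⟩ := hF
  have hA1 : A1 ≤ 1 := by omega
  have hB1 : B1 ≤ 1 := by omega
  cases sq <;> simp only [dnum, sg, bz, decide_eq_true_eq, if_true, Bool.false_eq_true, if_false] <;>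
    unfold nc <;> split_ifs <;> omega

theorem out_r (w m1 m2 sr : Bool) (A1 B1 A2 C2 B3 C3 T F : ℕ)
    (h : TriPos w m1 m2 A1 B1 A2 C2 B3 C3) (hT : OutPos A1 B1 A2 C2 B3 C3 T)
    (hF : OutPos A1 B1 A2 C2 B3 C3 F) (hTF : T ≠ F) :
    dnum true T F sr C2 C3 = sg sr * (bz (decide (nc F A2 T)) - bz (decide (nc F B3 T))) := by
  obtain ⟨h1, h2, h3, h4, h5, h6, h7, n1, n2, n3, n4⟩ := h
  obtain ⟨t0, t1, t2, t3, t4⟩ := hT
  obtain ⟨f0, f1, f2, f3, f4⟩ := hF
  cases sr <;> simp only [dnum, sg, bz, decide_eq_true_eq, if_true, Bool.false_eq_true, if_false] <;>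
    unfold nc <;> split_ifs <;> omega

end triangle

section trianglesum

noncomputable def cnum (s : Bool) (u1 u2 z : ℕ) : ℤ :=
  if nc (if s then u1 else u2) z (if s then u2 else u1) then 1 else 0

def bet1 : Bool → Bool → Bool → ℤ
  | true, true, true => -1
  | true, true, false => 1
  | true, false, true => 1
  | true, false, false => -1
  | false, true, true => 1
  | false, true, false => -1
  | false, false, true => -1
  | false, false, false => 1

def bet2 : Bool → Bool → Bool → ℤ
  | true, true, true => 0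
  | true, true, false => 1
  | true, false, true => 0
  | true, false, false => -1
  | false, true, true => 1
  | false, true, false => 0
  | false, false, true => -1
  | false, false, false => 0

def bet3 : Bool → Bool → Bool → ℤ
  | true, true, true => 0
  | true, true, false => 0
  | true, false, true => -1
  | true, false, false => 1
  | false, true, true => -1
  | false, true, false => 1
  | false, false, true => 0
  | false, false, false => 0

def cb (s z2 : Bool) : ℤ := if s then bz z2 else bz (!z2)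

theorem bool_ident : ∀ k sp sq t2 f2 t3 f3 o : Bool,
    (t2 && !f2 → o) → (!t2 && f2 → !o) → (t3 && !f3 → o) → (!t3 && f3 → !o) →
    (k → t2 → t3) → (k → f2 → f3) → (!k → t3 → t2) → (!k → f3 → f2) →
    (bz ((f2 && !t2) || (!t2 && o) || (o && f2)) - bz o) *
      (1 - (bz o - bz ((f3 && !t3) || (!t3 && o) || (o && f3))) ^ 2) =
    bet1 k sp sq * (cb sp t2 * cb sq f3 - cb sp f2 * cb sq t3) +
    bet2 k sp sq * (cb sp f2 - cb sp t2) + bet3 k sp sq * (cb sq f3 - cb sq t3) := by
  decide +kernel

theorem cnum_p (w m1 m2 sp : Bool) (A1 B1 A2 C2 B3 C3 z : ℕ)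
    (h : TriPos w m1 m2 A1 B1 A2 C2 B3 C3) (hz : OutPos A1 B1 A2 C2 B3 C3 z) :
    cnum sp A1 A2 z = cb sp (decide (z < A2)) := by
  obtain ⟨h1, h2, h3, h4, h5, h6, h7, n1, n2, n3, n4⟩ := h
  obtain ⟨t0, t1, t2, t3, t4⟩ := hz
  have hA1 : A1 ≤ 1 := by omega
  by_cases hc : z < A2
  · simp only [hc, decide_true]
    cases sp <;> simp only [cnum, cb, bz, if_true, Bool.false_eq_true, if_false, Bool.not_true] <;>
      unfold nc <;> split_ifs <;> omega
  · simp only [hc, decide_false]
    cases sp <;> simp only [cnum, cb, bz, if_true, Bool.false_eq_true, if_false, Bool.not_false] <;>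
      unfold nc <;> split_ifs <;> omega

theorem cnum_q (w m1 m2 sq : Bool) (A1 B1 A2 C2 B3 C3 z : ℕ)
    (h : TriPos w m1 m2 A1 B1 A2 C2 B3 C3) (hz : OutPos A1 B1 A2 C2 B3 C3 z) :
    cnum sq B1 B3 z = cb sq (decide (z < B3)) := by
  obtain ⟨h1, h2, h3, h4, h5, h6, h7, n1, n2, n3, n4⟩ := h
  obtain ⟨t0, t1, t2, t3, t4⟩ := hz
  have hB1 : B1 ≤ 1 := by omega
  by_cases hc : z < B3
  · simp only [hc, decide_true]
    cases sq <;> simp only [cnum, cb, bz, if_true, Bool.false_eq_true, if_false, Bool.not_true] <;>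
      unfold nc <;> split_ifs <;> omega
  · simp only [hc, decide_false]
    cases sq <;> simp only [cnum, cb, bz, if_true, Bool.false_eq_true, if_false, Bool.not_false] <;>
      unfold nc <;> split_ifs <;> omega

theorem pointM (w m1 m2 sp sq : Bool) (A1 B1 A2 C2 B3 C3 T F : ℕ)
    (h : TriPos w m1 m2 A1 B1 A2 C2 B3 C3) (hT : OutPos A1 B1 A2 C2 B3 C3 T)
    (hF : OutPos A1 B1 A2 C2 B3 C3 F) (hTF : T ≠ F) :
    (bz (decide (nc F A2 T)) - bz (decide (nc F A1 T))) *
      (1 - (bz (decide (nc F A1 T)) - bz (decide (nc F B3 T))) ^ 2) =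
    bet1 (decide (A2 < B3)) sp sq *
      (cnum sp A1 A2 T * cnum sq B1 B3 F - cnum sp A1 A2 F * cnum sq B1 B3 T) +
    bet2 (decide (A2 < B3)) sp sq * (cnum sp A1 A2 F - cnum sp A1 A2 T) +
    bet3 (decide (A2 < B3)) sp sq * (cnum sq B1 B3 F - cnum sq B1 B3 T) := by
  rw [cnum_p w m1 m2 sp A1 B1 A2 C2 B3 C3 T h hT, cnum_p w m1 m2 sp A1 B1 A2 C2 B3 C3 F h hF,
    cnum_q w m1 m2 sq A1 B1 A2 C2 B3 C3 T h hT, cnum_q w m1 m2 sq A1 B1 A2 C2 B3 C3 F h hF]
  obtain ⟨h1, h2, h3, h4, h5, h6, h7, n1, n2, n3, n4⟩ := h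
  obtain ⟨t0, t1, t2, t3, t4⟩ := hT
  obtain ⟨f0, f1, f2, f3, f4⟩ := hF
  have hA1 : A1 ≤ 1 := by omega
  have e1 : decide (nc F A1 T) = decide (T < F) := by
    congr 1; apply propext; unfold nc; omega
  have e2 : decide (nc F A2 T) = ((decide (F < A2) && !decide (T < A2)) ||
      (!decide (T < A2) && decide (T < F)) || (decide (T < F) && decide (F < A2))) := by
    rw [← decide_not, ← Bool.decide_and, ← Bool.decide_and, ← Bool.decide_and, ← Bool.decide_or,
      ← Bool.decide_or]
    congr 1; apply propext; unfold nc; omega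
  have e3 : decide (nc F B3 T) = ((decide (F < B3) && !decide (T < B3)) ||
      (!decide (T < B3) && decide (T < F)) || (decide (T < F) && decide (F < B3))) := by
    rw [← decide_not, ← Bool.decide_and, ← Bool.decide_and, ← Bool.decide_and, ← Bool.decide_or,
      ← Bool.decide_or]
    congr 1; apply propext; unfold nc; omega
  rw [e1, e2, e3]
  apply bool_ident
  · simp only [Bool.and_eq_true, decide_eq_true_eq, Bool.not_eq_true', decide_eq_false_iff_not]
    omega
  · simp only [Bool.and_eq_true, decide_eq_true_eq, Bool.not_eq_true', decide_eq_false_iff_not]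
    omega
  · simp only [Bool.and_eq_true, decide_eq_true_eq, Bool.not_eq_true', decide_eq_false_iff_not]
    omega
  · simp only [Bool.and_eq_true, decide_eq_true_eq, Bool.not_eq_true', decide_eq_false_iff_not]
    omega
  · simp only [decide_eq_true_eq]; omega
  · simp only [decide_eq_true_eq]; omega
  · simp only [decide_eq_true_eq, Bool.not_eq_true', decide_eq_false_iff_not]; omega
  · simp only [decide_eq_true_eq, Bool.not_eq_true', decide_eq_false_iff_not]; omega

theorem constM (w sp sq sr : Bool) (A1 B1 A2 C2 B3 C3 : ℕ)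
    (h : TriPos w (w == (sq == sr)) (w == (sp == sr)) A1 B1 A2 C2 B3 C3) :
    bet1 (decide (A2 < B3)) sp sq * (dnum sp A1 A2 sq B1 B3 -
      (cnum sp A1 A2 (if sr then C2 else C3) * cnum sq B1 B3 (if sr then C3 else C2) -
       cnum sp A1 A2 (if sr then C3 else C2) * cnum sq B1 B3 (if sr then C2 else C3))) +
    bet2 (decide (A2 < B3)) sp sq * (- dnum sp A1 A2 sq B1 B3 - dnum sp A1 A2 sr C2 C3) +
    bet3 (decide (A2 < B3)) sp sq * (dnum sp A1 A2 sq B1 B3 - dnum sq B1 B3 sr C2 C3) =
    if sp = sq ∧ sq = sr then sg (decide (A2 < B3)) * sg sp else 0 := by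
  rw [km_01 w sp sq sr A1 B1 A2 C2 B3 C3 h, km_02 w sp sq sr A1 B1 A2 C2 B3 C3 h,
    km_12 w sp sq sr A1 B1 A2 C2 B3 C3 h]
  obtain ⟨h1, h2, h3, h4, h5, h6, h7, n1, n2, n3, n4⟩ := h
  by_cases hk : A2 < B3
  · simp only [hk, decide_true]
    cases w <;> cases sp <;> cases sq <;> cases sr <;>
      simp [cnum, Km, ev, sg, bet1, bet2, bet3] at h1 h2 h3 ⊢ <;> unfold nc <;> split_ifs <;> omega
  · simp only [hk, decide_false]
    cases w <;> cases sp <;> cases sq <;> cases sr <;>
      simp [cnum, Km, ev, sg, bet1, bet2, bet3] at h1 h2 h3 ⊢ <;> unfold nc <;> split_ifs <;> omega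

end trianglesum

/-! ## Invariance under the first and the second move -/

/-- The triangle of the third move with the order of its passages (`w`: the top strand runs from `p`
to `q`). -/
structure STri (D : KnotDiagram) (p q r : D.C) (w : Bool) : Prop where
  pq : p ≠ q
  pr : p ≠ r
  qr : q ≠ r
  top : if w then D.next (p, D.sign p) = (q, D.sign q) else D.next (q, D.sign q) = (p, D.sign p)
  mid : if (w == (D.sign q == D.sign r)) then D.next (p, !D.sign p) = (r, D.sign r)
    else D.next (r, D.sign r) = (p, !D.sign p)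
  bot : if (w == (D.sign p == D.sign r)) then D.next (q, !D.sign q) = (r, !D.sign r)
    else D.next (r, !D.sign r) = (q, !D.sign q)

/-! ### Behaviour of the cyclic order -/

theorem erase_before {C C' : Type} {f : C × Bool → C × Bool} {g : C' × Bool → C' × Bool}
    (ι : C → C') (hι : Function.Injective ι) (S : Set C') (hS : Set.range ι = Sᶜ)
    (hx : ∀ x : C × Bool, ∃ k : ℕ, g^[k + 1] (ι x.1, x.2) = (ι (f x).1, (f x).2) ∧
      ∀ j < k, (g^[j + 1] (ι x.1, x.2)).1 ∈ S)
    (h1 : ∀ x y : C × Bool, ∃ k : ℕ, f^[k] x = y)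
    {x y z : C × Bool} (hyz : y ≠ z) (hxz : x ≠ z) (hxy : x ≠ y) :
    before g (ι x.1, x.2) (ι y.1, y.2) (ι z.1, z.2) ↔ before f x y z := by
  have key : ∀ {x y z : C × Bool}, before f x y z →
      before g (ι x.1, x.2) (ι y.1, y.2) (ι z.1, z.2) := by
    rintro x y z ⟨k, rfl, hk⟩
    induction k with
    | zero =>
      apply before_refl
      intro e
      have h2 := hk 0 le_rfl
      apply h2
      obtain ⟨e1, e2⟩ := Prod.mk.inj e
      exact Prod.ext (hι e1) e2
    | succ k ih =>
      have ih' := ih (fun j hj => hk j (by omega))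
      refine before_trans ih' ?_
      rw [Function.iterate_succ_apply']
      have hu := hk k (by omega)
      have hv := hk (k + 1) le_rfl
      rw [Function.iterate_succ_apply'] at hv
      set u := f^[k] x
      obtain ⟨m, hm, hm'⟩ := hx u
      refine ⟨m + 1, hm, fun j hj => ?_⟩
      intro e
      rcases Nat.eq_zero_or_pos j with rfl | hj0
      · apply hu
        obtain ⟨e1, e2⟩ := Prod.mk.inj e
        exact Prod.ext (hι e1) e2
      · obtain ⟨i, rfl⟩ : ∃ i, j = i + 1 := ⟨j - 1, by omega⟩
        rcases Nat.lt_or_ge i m with hi | hi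
        · have h3 := hm' i hi
          rw [e] at h3
          have h4 : ι z.1 ∈ Sᶜ := by rw [← hS]; exact ⟨z.1, rfl⟩
          exact h4 h3
        · have : i = m := by omega
          subst this
          rw [hm] at e
          apply hv
          obtain ⟨e1, e2⟩ := Prod.mk.inj e
          exact Prod.ext (hι e1) e2
  constructor
  · intro hb
    by_contra hcon
    rw [not_before_iff h1 hyz] at hcon
    exact before_excl hb (key hcon)
  · exact key

theorem erase_dd {C C' : Type} {f : C × Bool → C × Bool} {g : C' × Bool → C' × Bool}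
    (ι : C → C') (hι : Function.Injective ι) (S : Set C') (hS : Set.range ι = Sᶜ)
    (hx : ∀ x : C × Bool, ∃ k : ℕ, g^[k + 1] (ι x.1, x.2) = (ι (f x).1, (f x).2) ∧
      ∀ j < k, (g^[j + 1] (ι x.1, x.2)).1 ∈ S)
    (h1 : ∀ x y : C × Bool, ∃ k : ℕ, f^[k] x = y) (a b : C) :
    dd g (ι a) (ι b) = dd f a b := by
  by_cases hab : a = b
  · subst hab; simp [dd_self]
  · rw [dd_ne hab, dd_ne (hι.ne hab)]
    unfold chi
    have e := fun s => erase_before (f := f) (g := g) ι hι S hS hx h1 (x := (a, true)) (y := (b, s))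
      (z := (a, false)) (by simpa using fun h => absurd h.symm hab) (by simp) (by simpa using fun h => absurd h hab)
    rw [e true, e false]

theorem chi_adj {C : Type} [Finite C] {next : C × Bool → C × Bool}
    (h : ∀ x y : C × Bool, ∃ k : ℕ, next^[k] x = y) {m : C} {y z : C × Bool} (hyz : next y = z)
    (hy : y.1 ≠ m) (hz : z.1 ≠ m) : chi next m y = chi next m z := by
  have h1 := zf_next h hy
  rw [hyz, zf_other hy, zf_other hz] at h1
  exact_mod_cast h1.symm

theorem dd_kink {C : Type} [Finite C] {next : C × Bool → C × Bool}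
    (h : ∀ x y : C × Bool, ∃ k : ℕ, next^[k] x = y) {p : C} {b : Bool}
    (hp : next (p, b) = (p, !b)) (x : C) : dd next p x = 0 := by
  by_cases hpx : p = x
  · subst hpx; exact dd_self p
  · obtain ⟨N, pos, hn, h0⟩ := exists_num h (p, true)
    rw [dd_ne hpx, chi_nc hn h (by simpa using Ne.symm hpx), chi_nc hn h (by simpa using Ne.symm hpx), h0]
    have hs := hn.step (p, b)
    have l1 := hn.lt (p, false)
    have l2 := hn.lt (x, true)
    have l3 := hn.lt (x, false)
    rw [hp] at hs
    have d1 : pos (x, true) ≠ pos (p, false) := fun e => hpx (by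
      have := hn.inj e; exact (Prod.mk.inj this).1.symm)
    have d2 : pos (x, false) ≠ pos (p, false) := fun e => hpx (by
      have := hn.inj e; exact (Prod.mk.inj this).1.symm)
    have d3 : pos (x, true) ≠ pos (p, true) := fun e => hpx (by
      have := hn.inj e; exact (Prod.mk.inj this).1.symm)
    have d4 : pos (x, false) ≠ pos (p, true) := fun e => hpx (by
      have := hn.inj e; exact (Prod.mk.inj this).1.symm)
    unfold nc
    cases b with
    | true =>
      simp only [Bool.not_true] at hs
      split_ifs <;> omega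
    | false =>
      simp only [Bool.not_false] at hs
      split_ifs <;> omega

theorem dd_twin {C : Type} [Finite C] {next : C × Bool → C × Bool}
    (h : ∀ x y : C × Bool, ∃ k : ℕ, next^[k] x = y) {p q : C} {b : Bool}
    (h1 : next (p, b) = (q, !b)) (h2 : next (p, !b) = (q, b) ∨ next (q, b) = (p, !b))
    (x : C) (hxp : x ≠ p) (hxq : x ≠ q) : dd next x q = - dd next x p := by
  rw [dd_ne hxp, dd_ne hxq]
  have e1 : chi next x (p, b) = chi next x (q, !b) :=
    chi_adj h h1 (by simpa using hxp.symm) (by simpa using hxq.symm)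
  have e2 : chi next x (p, !b) = chi next x (q, b) := by
    rcases h2 with h2 | h2
    · exact chi_adj h h2 (by simpa using hxp.symm) (by simpa using hxq.symm)
    · exact (chi_adj h h2 (by simpa using hxq.symm) (by simpa using hxp.symm)).symm
  cases b with
  | true =>
    simp only [Bool.not_true] at e1 e2
    rw [e1, e2]; ring
  | false =>
    simp only [Bool.not_false] at e1 e2
    rw [e1, e2]; ring

noncomputable instance (D : KnotDiagram) : Fintype D.C := by
  have := D.finC
  exact Fintype.ofFinite D.C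

instance (D : KnotDiagram) : Finite D.C := D.finC

/-- forty-eight times the invariant -/
noncomputable def inv48 (D : KnotDiagram) : ℤ := val (dd D.next) (fun c => sg (D.sign c))

theorem inv48_relabel (D' D : KnotDiagram) (h : Erases D' D ∅) : inv48 D' = inv48 D := by
  obtain ⟨ι, hι, hr, hs, hx⟩ := h
  have hbij : Function.Bijective ι := ⟨hι, by
    intro c
    have : c ∈ Set.range ι := by rw [hr]; simp
    exact this⟩
  unfold inv48
  rw [val_reindex (Equiv.ofBijective ι hbij)]
  congr 1
  · funext a b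
    exact erase_dd ι hι ∅ hr hx D.one_component a b
  · funext a
    exact congrArg sg (hs a)

theorem inv48_r1 (D' D : KnotDiagram) (p : D'.C) (b : Bool) (hp : D'.next (p, b) = (p, !b))
    (h : Erases D' D {p}) : inv48 D' = inv48 D := by
  obtain ⟨ι, hι, hr, hs, hx⟩ := h
  have hne : ∀ c, ι c ≠ p := by
    intro c e
    have : ι c ∈ ({p} : Set D'.C)ᶜ := by rw [← hr]; exact ⟨c, rfl⟩
    exact this e
  let F : D.C ⊕ Unit → D'.C := Sum.elim ι (fun _ => p)
  have hbij : Function.Bijective F := by
    constructor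
    · rintro (a | a) (b | b) hab
      · exact congrArg Sum.inl (hι hab)
      · exact absurd hab (hne a)
      · exact absurd hab.symm (hne b)
      · rfl
    · intro c
      by_cases hc : c = p
      · exact ⟨Sum.inr (), hc.symm⟩
      · have : c ∈ Set.range ι := by rw [hr]; exact hc
        obtain ⟨a, ha⟩ := this
        exact ⟨Sum.inl a, ha⟩
  unfold inv48
  rw [val_reindex (Equiv.ofBijective F hbij)]
  have k1 := dd_kink D'.one_component hp
  have k2 : ∀ x, dd D'.next x p = 0 := fun x => by
    rw [dd_antisymm D'.one_component, k1, neg_zero]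
  rw [val_kink _ _ (fun x => k2 _) (fun x => k1 _)]
  congr 1
  · funext a b
    exact erase_dd ι hι {p} hr hx D.one_component a b
  · funext a
    exact congrArg sg (hs a)

theorem inv48_r2 (D' D : KnotDiagram) (p q : D'.C) (b : Bool) (hpq : p ≠ q)
    (hsg : D'.sign p ≠ D'.sign q) (h1 : D'.next (p, b) = (q, !b))
    (h2 : D'.next (p, !b) = (q, b) ∨ D'.next (q, b) = (p, !b))
    (h : Erases D' D {p, q}) : inv48 D' = inv48 D := by
  obtain ⟨ι, hι, hr, hs, hx⟩ := h
  have hne : ∀ c, ι c ≠ p ∧ ι c ≠ q := by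
    intro c
    have : ι c ∈ ({p, q} : Set D'.C)ᶜ := by rw [← hr]; exact ⟨c, rfl⟩
    simpa [not_or] using this
  let F : D.C ⊕ Bool → D'.C := Sum.elim ι (fun s => if s then p else q)
  have hbij : Function.Bijective F := by
    constructor
    · rintro (a | a) (b | b) hab
      · exact congrArg Sum.inl (hι hab)
      · cases b
        · exact absurd hab (hne a).2
        · exact absurd hab (hne a).1
      · cases a
        · exact absurd hab.symm (hne b).2
        · exact absurd hab.symm (hne b).1
      · cases a <;> cases b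
        · rfl
        · exact absurd hab hpq.symm
        · exact absurd hab hpq
        · rfl
    · intro c
      by_cases hc : c = p
      · exact ⟨Sum.inr true, hc.symm⟩
      · by_cases hc' : c = q
        · exact ⟨Sum.inr false, hc'.symm⟩
        · have : c ∈ Set.range ι := by rw [hr]; simp [hc, hc']
          obtain ⟨a, ha⟩ := this
          exact ⟨Sum.inl a, ha⟩
  unfold inv48
  rw [val_reindex (Equiv.ofBijective F hbij)]
  have tw := dd_twin D'.one_component h1 h2
  have as := dd_antisymm D'.one_component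
  refine (val_twin (C := D.C) (fun a b => dd D'.next (F a) (F b)) (fun a => sg (D'.sign (F a)))
    (fun a => dd D'.next p (ι a)) (dd D'.next p q) (sg (D'.sign p))
    (fun a => dd_cases _ _) (by cases D'.sign p <;> rfl) (fun a => rfl)
    (fun a => by
      change dd D'.next q (ι a) = - dd D'.next p (ι a)
      rw [as q, tw (ι a) (hne a).1 (hne a).2, as (ι a) p]; ring)
    (fun a => as _ _)
    (fun a => by
      change dd D'.next (ι a) q = dd D'.next p (ι a)
      rw [tw (ι a) (hne a).1 (hne a).2, as (ι a) p]; ring)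
    rfl (as _ _) (fun s => dd_self _) rfl (by
      change sg (D'.sign q) = - sg (D'.sign p)
      revert hsg
      cases D'.sign p <;> cases D'.sign q <;> simp [sg])).trans ?_
  congr 1
  · funext a b
    exact erase_dd ι hι {p, q} hr hx D.one_component a b
  · funext a
    exact congrArg sg (hs a)

section r3

variable {C : Type}

section slide
variable {s : C → Bool} {p q r : C}

theorem slide_1 : slide s p q r (p, s p) = (q, s q) := by
  simp [slide]

theorem slide_2 (pq : p ≠ q) : slide s p q r (q, s q) = (p, s p) := by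
  simp [slide, pq.symm]

theorem slide_3 (pq : p ≠ q) : slide s p q r (p, !s p) = (r, s r) := by
  simp [slide, pq]

theorem slide_4 (pr : p ≠ r) (qr : q ≠ r) : slide s p q r (r, s r) = (p, !s p) := by
  simp [slide, pr.symm, qr.symm]

theorem slide_5 (pq : p ≠ q) (qr : q ≠ r) : slide s p q r (q, !s q) = (r, !s r) := by
  simp [slide, pq.symm, qr]

theorem slide_6 (pr : p ≠ r) (qr : q ≠ r) : slide s p q r (r, !s r) = (q, !s q) := by
  simp [slide, pr.symm, qr.symm]

theorem slide_out {x : C × Bool} (hp : x.1 ≠ p) (hq : x.1 ≠ q) (hr : x.1 ≠ r) :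
    slide s p q r x = x := by
  have h : ∀ (c : C) (b : Bool), x.1 ≠ c → x ≠ (c, b) := by
    rintro c b hc rfl; exact hc rfl
  simp [slide, h _ _ hp, h _ _ hq, h _ _ hr]

theorem slide_slide (pq : p ≠ q) (pr : p ≠ r) (qr : q ≠ r) (x : C × Bool) :
    slide s p q r (slide s p q r x) = x := by
  by_cases hp : x.1 = p
  · obtain ⟨c, b⟩ := x
    simp only at hp
    subst hp
    by_cases hb : b = s c
    · subst hb; rw [slide_1, slide_2 pq]
    · have : b = !s c := by cases b <;> cases h : s c <;> simp_all
      subst this; rw [slide_3 pq, slide_4 pr qr]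
  · by_cases hq : x.1 = q
    · obtain ⟨c, b⟩ := x
      simp only at hq
      subst hq
      by_cases hb : b = s c
      · subst hb; rw [slide_2 pq, slide_1]
      · have : b = !s c := by cases b <;> cases h : s c <;> simp_all
        subst this; rw [slide_5 pq qr, slide_6 pr qr]
    · by_cases hr : x.1 = r
      · obtain ⟨c, b⟩ := x
        simp only at hr
        subst hr
        by_cases hb : b = s c
        · subst hb; rw [slide_4 pr qr, slide_3 pq]
        · have : b = !s c := by cases b <;> cases h : s c <;> simp_all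
          subst this; rw [slide_6 pr qr, slide_5 pq qr]
      · rw [slide_out hp hq hr, slide_out hp hq hr]
end slide

theorem tri_num (D : KnotDiagram) {p q r : D.C} {w : Bool} (h : STri D p q r w) :
    ∃ (N : ℕ) (pos : D.C × Bool → ℕ), Num D.next N pos ∧
      TriPos w (w == (D.sign q == D.sign r)) (w == (D.sign p == D.sign r))
        (pos (p, D.sign p)) (pos (q, D.sign q)) (pos (p, !D.sign p)) (pos (r, D.sign r))
        (pos (q, !D.sign q)) (pos (r, !D.sign r)) := by
  obtain ⟨pq, pr, qr, top, mid, bot⟩ := h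
  obtain ⟨N, pos, hn, h0⟩ := exists_num D.one_component
    (if w then (p, D.sign p) else (q, D.sign q))
  refine ⟨N, pos, hn, ?_⟩
  have ne : ∀ (a b : D.C) (s t : Bool), a ≠ b → pos (a, s) ≠ pos (b, t) := by
    intro a b s t hab e
    exact hab (Prod.mk.inj (hn.inj e)).1
  have ne' : ∀ (a : D.C) (s : Bool), pos (a, s) ≠ pos (a, !s) := by
    intro a s e
    have := (Prod.mk.inj (hn.inj e)).2
    cases s <;> simp at this
  have a1 := ne p q (D.sign p) (D.sign q) pq
  have a2 := ne' p (D.sign p)
  have a3 := ne' q (D.sign q)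
  have a4 := ne' r (D.sign r)
  have b1 := ne p q (D.sign p) (!D.sign q) pq
  have b2 := ne p r (D.sign p) (D.sign r) pr
  have b3 := ne p r (D.sign p) (!D.sign r) pr
  have b4 := ne p q (!D.sign p) (D.sign q) pq
  have b5 := ne q r (D.sign q) (D.sign r) qr
  have b6 := ne q r (D.sign q) (!D.sign r) qr
  have c1 := ne p q (!D.sign p) (!D.sign q) pq
  have c2 := ne p r (!D.sign p) (!D.sign r) pr
  have c3 := ne p r (!D.sign p) (D.sign r) pr
  have c4 := ne q r (!D.sign q) (D.sign r) qr
  have c5 := ne q r (!D.sign q) (!D.sign r) qr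
  have st := hn.step
  have lt := hn.lt
  have htop : (w = true ∧ pos (p, D.sign p) = 0 ∧ pos (q, D.sign q) = 1) ∨
      (w = false ∧ pos (q, D.sign q) = 0 ∧ pos (p, D.sign p) = 1) := by
    cases w with
    | true =>
      left
      simp only [if_true] at top h0
      have s1 := st (p, D.sign p)
      rw [top] at s1
      have l1 := lt (q, D.sign q)
      refine ⟨rfl, h0, ?_⟩
      omega
    | false =>
      right
      simp only [Bool.false_eq_true, if_false] at top h0
      have s1 := st (q, D.sign q)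
      rw [top] at s1
      have l1 := lt (p, D.sign p)
      refine ⟨rfl, h0, ?_⟩
      omega
  refine ⟨htop, ?_, ?_, by omega, by omega, by omega, by omega, c1, c2, Ne.symm c4, a4⟩
  · generalize hm : (w == (D.sign q == D.sign r)) = m at mid ⊢
    cases m with
    | true =>
      left
      simp only [if_true] at mid
      have s1 := st (p, !D.sign p)
      rw [mid] at s1
      refine ⟨rfl, ?_⟩
      omega
    | false =>
      right
      simp only [Bool.false_eq_true, if_false] at mid
      have s1 := st (r, D.sign r)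
      rw [mid] at s1
      refine ⟨rfl, ?_⟩
      omega
  · generalize hm : (w == (D.sign p == D.sign r)) = m at bot ⊢
    cases m with
    | true =>
      left
      simp only [if_true] at bot
      have s1 := st (q, !D.sign q)
      rw [bot] at s1
      refine ⟨rfl, ?_⟩
      omega
    | false =>
      right
      simp only [Bool.false_eq_true, if_false] at bot
      have s1 := st (r, !D.sign r)
      rw [bot] at s1
      refine ⟨rfl, ?_⟩
      omega

theorem tri_outPos {D : KnotDiagram} {p q r : D.C} {N : ℕ} {pos : D.C × Bool → ℕ}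
    (hn : Num D.next N pos)
    {w m1 m2 : Bool} (h : TriPos w m1 m2
        (pos (p, D.sign p)) (pos (q, D.sign q)) (pos (p, !D.sign p)) (pos (r, D.sign r))
        (pos (q, !D.sign q)) (pos (r, !D.sign r))) {z : D.C × Bool}
    (hp : z.1 ≠ p) (hq : z.1 ≠ q) (hr : z.1 ≠ r) :
    OutPos (pos (p, D.sign p)) (pos (q, D.sign q)) (pos (p, !D.sign p)) (pos (r, D.sign r))
        (pos (q, !D.sign q)) (pos (r, !D.sign r)) (pos z) := by
  have ne : ∀ (a : D.C) (s : Bool), z.1 ≠ a → pos z ≠ pos (a, s) := by
    intro a s hab e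
    exact hab (by rw [hn.inj e])
  have e1 := ne p (D.sign p) hp
  have e2 := ne q (D.sign q) hq
  refine ⟨?_, ne _ _ hp, ne _ _ hr, ne _ _ hq, ne _ _ hr⟩
  have := h.top
  omega

theorem chi_cnum {C : Type} [Finite C] {next : C × Bool → C × Bool} {N : ℕ} {pos : C × Bool → ℕ}
    (hn : Num next N pos)
    (h : ∀ x y : C × Bool, ∃ k : ℕ, next^[k] x = y) {m : C} {z : C × Bool}
    (hz : z.1 ≠ m) (s : Bool) :
    chi next m z = cnum s (pos (m, s)) (pos (m, !s)) (pos z) := by
  rw [chi_nc hn h hz]
  unfold cnum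
  cases s <;> rfl

end r3

section r3main

theorem km_diag : ∀ (k w a b c : Bool) (i : Fin 3),
    Km (sg k) (sg w) (ev a b c) i i = 0 := by
  decide +kernel

/-- the matrix of a triangle -/
theorem tri_matrix {C : Type} [Finite C] {next : C × Bool → C × Bool} {N : ℕ}
    {pos : C × Bool → ℕ} (hn : Num next N pos) (h1 : ∀ x y : C × Bool, ∃ k : ℕ, next^[k] x = y)
    {p q r : C} (pq : p ≠ q) (pr : p ≠ r) (qr : q ≠ r) (s : C → Bool) (w : Bool)
    (A1 B1 A2 C2 B3 C3 : ℕ)
    (hA1 : pos (p, s p) = A1) (hB1 : pos (q, s q) = B1) (hA2 : pos (p, !s p) = A2)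
    (hC2 : pos (r, s r) = C2) (hB3 : pos (q, !s q) = B3) (hC3 : pos (r, !s r) = C3)
    (h : TriPos w (w == (s q == s r)) (w == (s p == s r)) A1 B1 A2 C2 B3 C3)
    (g : Fin 3 → C) (g0 : g 0 = p) (g1 : g 1 = q) (g2 : g 2 = r) (i j : Fin 3) :
    dd next (g i) (g j) =
      Km (sg (decide (A2 < B3))) (sg w) (ev (s p) (s q) (s r)) i j := by
  have e01 : dd next p q = Km (sg (decide (A2 < B3))) (sg w) (ev (s p) (s q) (s r)) 0 1 := by
    rw [dd_dnum hn h1 pq (s p) (s q), hA1, hA2, hB1, hB3, km_01 w _ _ (s r) A1 B1 A2 C2 B3 C3 h]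
  have e02 : dd next p r = Km (sg (decide (A2 < B3))) (sg w) (ev (s p) (s q) (s r)) 0 2 := by
    rw [dd_dnum hn h1 pr (s p) (s r), hA1, hA2, hC2, hC3, km_02 w (s p) (s q) (s r) A1 B1 A2 C2 B3 C3 h]
  have e12 : dd next q r = Km (sg (decide (A2 < B3))) (sg w) (ev (s p) (s q) (s r)) 1 2 := by
    rw [dd_dnum hn h1 qr (s q) (s r), hB1, hB3, hC2, hC3, km_12 w (s p) (s q) (s r) A1 B1 A2 C2 B3 C3 h]
  have as := dd_antisymm h1
  have ka := km_antisymm (decide (A2 < B3)) w (s p) (s q) (s r)
  have kd := km_diag (decide (A2 < B3)) w (s p) (s q) (s r)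
  fin_cases i <;> fin_cases j
  · change dd next (g 0) (g 0) = _
    rw [dd_self]; exact (kd 0).symm
  · change dd next (g 0) (g 1) = _
    rw [g0, g1]; exact e01
  · change dd next (g 0) (g 2) = _
    rw [g0, g2]; exact e02
  · change dd next (g 1) (g 0) = _
    rw [g0, g1, as, e01]; exact (ka 1 0).symm
  · change dd next (g 1) (g 1) = _
    rw [dd_self]; exact (kd 1).symm
  · change dd next (g 1) (g 2) = _
    rw [g1, g2]; exact e12
  · change dd next (g 2) (g 0) = _
    rw [g0, g2, as, e02]; exact (ka 2 0).symm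
  · change dd next (g 2) (g 1) = _
    rw [g1, g2, as, e12]; exact (ka 2 1).symm
  · change dd next (g 2) (g 2) = _
    rw [dd_self]; exact (kd 2).symm

/-- the rows of the outside crossings -/
theorem tri_rows {C : Type} [Finite C] {next : C × Bool → C × Bool} {N : ℕ}
    {pos : C × Bool → ℕ} (hn : Num next N pos) (h1 : ∀ x y : C × Bool, ∃ k : ℕ, next^[k] x = y)
    {p q r e : C} (ep : e ≠ p) (eq : e ≠ q) (er : e ≠ r) (s : C → Bool) (w m1 m2 : Bool)
    (A1 B1 A2 C2 B3 C3 T F : ℕ)
    (hA1 : pos (p, s p) = A1) (hB1 : pos (q, s q) = B1) (hA2 : pos (p, !s p) = A2)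
    (hC2 : pos (r, s r) = C2) (hB3 : pos (q, !s q) = B3) (hC3 : pos (r, !s r) = C3)
    (hT : pos (e, true) = T) (hF : pos (e, false) = F)
    (h : TriPos w m1 m2 A1 B1 A2 C2 B3 C3)
    (oT : OutPos A1 B1 A2 C2 B3 C3 T) (oF : OutPos A1 B1 A2 C2 B3 C3 F) (hTF : T ≠ F)
    (g : Fin 3 → C) (g0 : g 0 = p) (g1 : g 1 = q) (g2 : g 2 = r) (i : Fin 3) :
    dd next e (g i) = yv (ev (s p) (s q) (s r)) (bz (decide (nc F A1 T)))
      (bz (decide (nc F A2 T))) (bz (decide (nc F B3 T))) i := by
  fin_cases i
  · change dd next e (g 0) = sg (s p) * (_ - _)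
    rw [g0, dd_dnum hn h1 ep true (s p), hA1, hA2, Bool.not_true, hT, hF]
    exact out_p w m1 m2 (s p) A1 B1 A2 C2 B3 C3 T F h oT oF hTF
  · change dd next e (g 1) = sg (s q) * (_ - _)
    rw [g1, dd_dnum hn h1 eq true (s q), hB1, hB3, Bool.not_true, hT, hF]
    exact out_q w m1 m2 (s q) A1 B1 A2 C2 B3 C3 T F h oT oF hTF
  · change dd next e (g 2) = sg (s r) * (_ - _)
    rw [g2, dd_dnum hn h1 er true (s r), hC2, hC3, Bool.not_true, hT, hF]
    exact out_r w m1 m2 (s r) A1 B1 A2 C2 B3 C3 T F h oT oF hTF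

/-- adjacency does not change the cyclic position of a cluster with respect to outside points -/
theorem nc_adj {w m1 m2 : Bool} {A1 B1 A2 C2 B3 C3 T F : ℕ}
    (h : TriPos w m1 m2 A1 B1 A2 C2 B3 C3)
    (oT : OutPos A1 B1 A2 C2 B3 C3 T) (oF : OutPos A1 B1 A2 C2 B3 C3 F) :
    decide (nc F B1 T) = decide (nc F A1 T) ∧ decide (nc F C2 T) = decide (nc F A2 T) ∧
      decide (nc F C3 T) = decide (nc F B3 T) := by
  obtain ⟨h1, h2, h3, h4, h5, h6, h7, n1, n2, n3, n4⟩ := h
  obtain ⟨t0, t1, t2, t3, t4⟩ := oT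
  obtain ⟨f0, f1, f2, f3, f4⟩ := oF
  refine ⟨?_, ?_, ?_⟩ <;> congr 1 <;> apply propext <;> unfold nc <;> omega

theorem sum_compl3 {C : Type} [Fintype C] {p q r : C} (G : {c : C // c ≠ p ∧ c ≠ q ∧ c ≠ r} ⊕ Fin 3 ≃ C)
    (hl : ∀ c, G (Sum.inl c) = c.1) (g0 : G (Sum.inr 0) = p) (g1 : G (Sum.inr 1) = q)
    (g2 : G (Sum.inr 2) = r) (f : C → ℤ) :
    ∑ c : {c : C // c ≠ p ∧ c ≠ q ∧ c ≠ r}, f c.1 = ∑ c, f c - f p - f q - f r := by
  rw [← G.sum_comp f, Fintype.sum_sum_type, Fin.sum_univ_three, g0, g1, g2]
  simp only [hl]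
  ring

end r3main

section r3final

theorem sum_outside {C : Type} [Fintype C] {p q r : C} (rp : r ≠ p) (rq : r ≠ q) (f : C → ℤ) :
    ∑ c : {c : C // c ≠ p ∧ c ≠ q ∧ c ≠ r}, f c.1 = ∑ c ∈ (univ.erase p).erase q, f c - f r := by
  rw [← Finset.add_sum_erase _ _ (show r ∈ (univ.erase p).erase q by simp [rp, rq])]
  rw [add_sub_cancel_left]
  rw [Finset.sum_subtype (((univ.erase p).erase q).erase r) (p := fun c => c ≠ p ∧ c ≠ q ∧ c ≠ r)]
  intro x
  simp only [Finset.mem_erase, Finset.mem_univ, and_true]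
  tauto

theorem pos_T {C : Type} (pos : C × Bool → ℕ) (s : C → Bool) (r : C) :
    pos (r, true) = (if s r then pos (r, s r) else pos (r, !s r)) := by
  cases h : s r <;> simp

theorem pos_F {C : Type} (pos : C × Bool → ℕ) (s : C → Bool) (r : C) :
    pos (r, false) = (if s r then pos (r, !s r) else pos (r, s r)) := by
  cases h : s r <;> simp

theorem tri_hM {C : Type} [Fintype C] [Nonempty C] {next : C × Bool → C × Bool} {N : ℕ}
    {pos : C × Bool → ℕ} (hn : Num next N pos) (h1 : ∀ x y : C × Bool, ∃ k : ℕ, next^[k] x = y)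
    (hp : Nat.card (Region next) = Nat.card C + 2)
    {p q r : C} (pq : p ≠ q) (pr : p ≠ r) (qr : q ≠ r) (s : C → Bool) (w : Bool)
    (A1 B1 A2 C2 B3 C3 : ℕ)
    (hA1 : pos (p, s p) = A1) (hB1 : pos (q, s q) = B1) (hA2 : pos (p, !s p) = A2)
    (hC2 : pos (r, s r) = C2) (hB3 : pos (q, !s q) = B3) (hC3 : pos (r, !s r) = C3)
    (h : TriPos w (w == (s q == s r)) (w == (s p == s r)) A1 B1 A2 C2 B3 C3)
    (ho : ∀ z : C × Bool, z.1 ≠ p → z.1 ≠ q → z.1 ≠ r → OutPos A1 B1 A2 C2 B3 C3 (pos z)) :
    ∑ e : {c : C // c ≠ p ∧ c ≠ q ∧ c ≠ r},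
      ((bz (decide (nc (pos (e.1, false)) A2 (pos (e.1, true)))) -
        bz (decide (nc (pos (e.1, false)) A1 (pos (e.1, true))))) *
        (1 - (bz (decide (nc (pos (e.1, false)) A1 (pos (e.1, true)))) -
          bz (decide (nc (pos (e.1, false)) B3 (pos (e.1, true))))) ^ 2)) =
      if s p = s q ∧ s q = s r then sg (decide (A2 < B3)) * sg (s p) else 0 := by
  rw [← constM w (s p) (s q) (s r) A1 B1 A2 C2 B3 C3 h]
  have hterm : ∀ e : {c : C // c ≠ p ∧ c ≠ q ∧ c ≠ r},
      ((bz (decide (nc (pos (e.1, false)) A2 (pos (e.1, true)))) -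
        bz (decide (nc (pos (e.1, false)) A1 (pos (e.1, true))))) *
        (1 - (bz (decide (nc (pos (e.1, false)) A1 (pos (e.1, true)))) -
          bz (decide (nc (pos (e.1, false)) B3 (pos (e.1, true))))) ^ 2)) =
      bet1 (decide (A2 < B3)) (s p) (s q) *
        (chi next p (e.1, true) * chi next q (e.1, false) -
          chi next p (e.1, false) * chi next q (e.1, true)) +
      bet2 (decide (A2 < B3)) (s p) (s q) * dd next p e.1 +
      bet3 (decide (A2 < B3)) (s p) (s q) * dd next q e.1 := by
    rintro ⟨e, ep, eq, er⟩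
    simp only
    have hTF : pos (e, true) ≠ pos (e, false) := fun e' => by simpa using hn.inj e'
    rw [pointM w _ _ (s p) (s q) A1 B1 A2 C2 B3 C3 _ _ h (ho (e, true) ep eq er)
      (ho (e, false) ep eq er) hTF]
    rw [dd_ne (Ne.symm ep), dd_ne (Ne.symm eq), chi_cnum hn h1 (m := p) (z := (e, true)) ep (s p),
      chi_cnum hn h1 (m := p) (z := (e, false)) ep (s p),
      chi_cnum hn h1 (m := q) (z := (e, true)) eq (s q),
      chi_cnum hn h1 (m := q) (z := (e, false)) eq (s q), hA1, hA2, hB1, hB3]
  rw [Finset.sum_congr rfl fun e _ => hterm e, Finset.sum_add_distrib, Finset.sum_add_distrib,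
    ← Finset.mul_sum, ← Finset.mul_sum, ← Finset.mul_sum]
  have s1 := sum_outside pr.symm qr.symm (fun c => chi next p (c, true) * chi next q (c, false) -
          chi next p (c, false) * chi next q (c, true))
  rw [pair_rel h1 hp pq] at s1
  have s2 : ∑ c : {c : C // c ≠ p ∧ c ≠ q ∧ c ≠ r}, dd next p c.1 = - dd next p q - dd next p r := by
    rw [sum_outside pr.symm qr.symm (fun c => dd next p c)]
    have h3 := index_rel h1 hp p
    rw [← Finset.add_sum_erase _ _ (Finset.mem_univ p),
      ← Finset.add_sum_erase _ _ (show q ∈ univ.erase p by simp [pq.symm]), dd_self] at h3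
    linarith
  have s3 : ∑ c : {c : C // c ≠ p ∧ c ≠ q ∧ c ≠ r}, dd next q c.1 = dd next p q - dd next q r := by
    rw [sum_outside pr.symm qr.symm (fun c => dd next q c)]
    have h3 := index_rel h1 hp q
    rw [← Finset.add_sum_erase _ _ (Finset.mem_univ p),
      ← Finset.add_sum_erase _ _ (show q ∈ univ.erase p by simp [pq.symm]), dd_self,
      dd_antisymm h1 q p] at h3
    linarith
  rw [s1, s2, s3]
  rw [dd_dnum hn h1 pq (s p) (s q), dd_dnum hn h1 pr (s p) (s r), dd_dnum hn h1 qr (s q) (s r),
    chi_cnum hn h1 (m := p) (z := (r, true)) pr.symm (s p),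
    chi_cnum hn h1 (m := p) (z := (r, false)) pr.symm (s p),
    chi_cnum hn h1 (m := q) (z := (r, true)) qr.symm (s q),
    chi_cnum hn h1 (m := q) (z := (r, false)) qr.symm (s q), pos_T pos s r, pos_F pos s r,
    hA1, hA2, hB1, hB3, hC2, hC3]

theorem inv48_r3 (D D' : KnotDiagram) (p q r : D.C) (w : Bool) (e : D.C ≃ D'.C)
    (ht : STri D p q r w) (hs : ∀ c, D'.sign (e c) = D.sign c)
    (hx : ∀ x, D'.next (Prod.map e id (slide D.sign p q r x)) =
        Prod.map e id (slide D.sign p q r (D.next x))) : inv48 D = inv48 D' := by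
  obtain ⟨N, pos, hn, hpos⟩ := tri_num D ht
  obtain ⟨pq, pr, qr, -, -, -⟩ := ht
  have hss := fun x => slide_slide (s := D.sign) pq pr qr x
  -- positions in the second diagram
  let pos' : D'.C × Bool → ℕ := fun y => pos (slide D.sign p q r (Prod.map e.symm id y))
  have hpos' : ∀ x, pos' (Prod.map e id x) = pos (slide D.sign p q r x) := by
    intro x
    change pos (slide D.sign p q r (Prod.map e.symm id (Prod.map e id x))) = _
    congr 2
    obtain ⟨c, b⟩ := x
    simp
  have hn' : Num D'.next N pos' := by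
    refine ⟨fun y => hn.lt _, ?_, ?_⟩
    · intro y1 y2 hy
      have h3 := hn.inj hy
      have h4 := congrArg (slide D.sign p q r) h3
      rw [hss, hss] at h4
      obtain ⟨c1, b1⟩ := y1
      obtain ⟨c2, b2⟩ := y2
      simpa using h4
    · intro y
      obtain ⟨x, rfl⟩ : ∃ x, y = Prod.map e id (slide D.sign p q r x) := by
        refine ⟨slide D.sign p q r (Prod.map e.symm id y), ?_⟩
        rw [hss]
        obtain ⟨c, b⟩ := y
        simp
      rw [hx, hpos', hpos', hss, hss]
      exact hn.step x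
  have q1 : pos' (e p, D'.sign (e p)) = pos (q, D.sign q) := by
    rw [hs]; exact (hpos' (p, D.sign p)).trans (by rw [slide_1])
  have q2 : pos' (e q, D'.sign (e q)) = pos (p, D.sign p) := by
    rw [hs]; exact (hpos' (q, D.sign q)).trans (by rw [slide_2 pq])
  have q3 : pos' (e p, !D'.sign (e p)) = pos (r, D.sign r) := by
    rw [hs]; exact (hpos' (p, !D.sign p)).trans (by rw [slide_3 pq])
  have q4 : pos' (e r, D'.sign (e r)) = pos (p, !D.sign p) := by
    rw [hs]; exact (hpos' (r, D.sign r)).trans (by rw [slide_4 pr qr])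
  have q5 : pos' (e q, !D'.sign (e q)) = pos (r, !D.sign r) := by
    rw [hs]; exact (hpos' (q, !D.sign q)).trans (by rw [slide_5 pq qr])
  have q6 : pos' (e r, !D'.sign (e r)) = pos (q, !D.sign q) := by
    rw [hs]; exact (hpos' (r, !D.sign r)).trans (by rw [slide_6 pr qr])
  have hout : ∀ (c : D.C) (b : Bool), c ≠ p → c ≠ q → c ≠ r → pos' (e c, b) = pos (c, b) := by
    intro c b hp hq hr
    exact (hpos' (c, b)).trans (by rw [slide_out hp hq hr])
  have ho : ∀ z : D.C × Bool, z.1 ≠ p → z.1 ≠ q → z.1 ≠ r →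
      OutPos (pos (p, D.sign p)) (pos (q, D.sign q)) (pos (p, !D.sign p)) (pos (r, D.sign r))
        (pos (q, !D.sign q)) (pos (r, !D.sign r)) (pos z) :=
    fun z hp hq hr => tri_outPos hn hpos hp hq hr
  -- the splitting of the crossings
  let F : {c : D.C // c ≠ p ∧ c ≠ q ∧ c ≠ r} ⊕ Fin 3 → D.C := Sum.elim Subtype.val ![p, q, r]
  have hbij : Function.Bijective F := by
    constructor
    · rintro (⟨a, a1, a2, a3⟩ | i) (⟨b, b1, b2, b3⟩ | j) hab
      · simp only [F, Sum.elim_inl] at hab
        subst hab; rfl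
      · simp only [F, Sum.elim_inl, Sum.elim_inr] at hab
        fin_cases j <;> simp at hab
        · exact absurd hab a1
        · exact absurd hab a2
        · exact absurd hab a3
      · simp only [F, Sum.elim_inl, Sum.elim_inr] at hab
        fin_cases i <;> simp at hab
        · exact absurd hab.symm b1
        · exact absurd hab.symm b2
        · exact absurd hab.symm b3
      · simp only [F, Sum.elim_inr] at hab
        fin_cases i <;> fin_cases j <;> simp at hab ⊢
        · exact pq hab
        · exact pr hab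
        · exact pq hab.symm
        · exact qr hab
        · exact pr hab.symm
        · exact qr hab.symm
    · intro c
      by_cases hp : c = p
      · exact ⟨Sum.inr 0, hp.symm⟩
      · by_cases hq : c = q
        · exact ⟨Sum.inr 1, hq.symm⟩
        · by_cases hr : c = r
          · exact ⟨Sum.inr 2, hr.symm⟩
          · exact ⟨Sum.inl ⟨c, hp, hq, hr⟩, rfl⟩
  set A1 := pos (p, D.sign p) with hA1
  set B1 := pos (q, D.sign q) with hB1
  set A2 := pos (p, !D.sign p) with hA2
  set C2 := pos (r, D.sign r) with hC2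
  set B3 := pos (q, !D.sign q) with hB3
  set C3 := pos (r, !D.sign r) with hC3
  have h1 := D.one_component
  have h1' := D'.one_component
  have flip : TriPos (!w) ((!w) == (D'.sign (e q) == D'.sign (e r)))
      ((!w) == (D'.sign (e p) == D'.sign (e r))) B1 A1 C2 A2 C3 B3 := by
    rw [hs, hs, hs, flip_m, flip_m]; exact hpos.flip
  have : Nonempty D.C := ⟨p⟩
  unfold inv48
  rw [val_reindex e, val_reindex (Equiv.ofBijective F hbij),
    val_reindex (Equiv.ofBijective F hbij) (fun a b => dd D'.next (e a) (e b))]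
  have hsg : (fun a => sg (D'.sign (e (Equiv.ofBijective F hbij a)))) =
      (fun a => sg (D.sign (Equiv.ofBijective F hbij a))) := by
    funext a; rw [hs]
  rw [hsg]
  have hrow : ∀ (x : {c : D.C // c ≠ p ∧ c ≠ q ∧ c ≠ r}) (i : Fin 3),
      dd D.next x.1 (F (Sum.inr i)) = yv (ev (D.sign p) (D.sign q) (D.sign r))
        (bz (decide (nc (pos (x.1, false)) A1 (pos (x.1, true)))))
        (bz (decide (nc (pos (x.1, false)) A2 (pos (x.1, true)))))
        (bz (decide (nc (pos (x.1, false)) B3 (pos (x.1, true))))) i := by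
    rintro ⟨x, xp, xq, xr⟩ i
    have hTF : pos (x, true) ≠ pos (x, false) := fun e' => by simpa using hn.inj e'
    exact tri_rows hn h1 xp xq xr D.sign w _ _ A1 B1 A2 C2 B3 C3 _ _ rfl rfl rfl rfl rfl rfl rfl rfl
      hpos (ho (x, true) xp xq xr) (ho (x, false) xp xq xr) hTF (fun i => F (Sum.inr i)) rfl rfl rfl i
  have hrow' : ∀ (x : {c : D.C // c ≠ p ∧ c ≠ q ∧ c ≠ r}) (i : Fin 3),
      dd D'.next (e x.1) (e (F (Sum.inr i))) = yv (ev (D.sign p) (D.sign q) (D.sign r))
        (bz (decide (nc (pos (x.1, false)) A1 (pos (x.1, true)))))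
        (bz (decide (nc (pos (x.1, false)) A2 (pos (x.1, true)))))
        (bz (decide (nc (pos (x.1, false)) B3 (pos (x.1, true))))) i := by
    rintro ⟨x, xp, xq, xr⟩ i
    have hTF : pos (x, true) ≠ pos (x, false) := fun e' => by simpa using hn.inj e'
    have oT := ho (x, true) xp xq xr
    have oF := ho (x, false) xp xq xr
    have oT' : OutPos B1 A1 C2 A2 C3 B3 (pos (x, true)) :=
      ⟨oT.t0, oT.t2, oT.t1, oT.t4, oT.t3⟩
    have oF' : OutPos B1 A1 C2 A2 C3 B3 (pos (x, false)) :=
      ⟨oF.t0, oF.t2, oF.t1, oF.t4, oF.t3⟩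
    have := tri_rows hn' h1' (e.injective.ne xp) (e.injective.ne xq) (e.injective.ne xr)
      D'.sign (!w) _ _ B1 A1 C2 A2 C3 B3 _ _ q1 q2 q3 q4 q5 q6 (hout x true xp xq xr)
      (hout x false xp xq xr)
      flip oT' oF' hTF (fun i => e (F (Sum.inr i))) rfl rfl rfl i
    rw [hs, hs, hs] at this
    obtain ⟨a1, a2, a3⟩ := nc_adj hpos oT oF
    rw [a1, a2, a3] at this
    exact this
  refine val_r3 (C := {c : D.C // c ≠ p ∧ c ≠ q ∧ c ≠ r}) _ _ _ (decide (A2 < B3)) w
    (D.sign p) (D.sign q) (D.sign r)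
    (fun x => decide (nc (pos (x.1, false)) A1 (pos (x.1, true))))
    (fun x => decide (nc (pos (x.1, false)) A2 (pos (x.1, true))))
    (fun x => decide (nc (pos (x.1, false)) B3 (pos (x.1, true))))
    ?_ ?_ ?_ ?_ ?_ ?_ ?_ ?_ ?_ ?_
  · intro i
    fin_cases i <;> rfl
  · intro x; exact ⟨_, rfl⟩
  · rintro ⟨x, xp, xq, xr⟩ ⟨y, yp, yq, yr⟩
    change dd D.next x y = dd D'.next (e x) (e y)
    by_cases hxy : x = y
    · subst hxy; rw [dd_self, dd_self]
    · rw [dd_ne hxy, dd_ne (e.injective.ne hxy),
        chi_nc hn h1 (show ((y, false) : D.C × Bool).1 ≠ x from Ne.symm hxy),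
        chi_nc hn h1 (show ((y, true) : D.C × Bool).1 ≠ x from Ne.symm hxy),
        chi_nc hn' h1' (show ((e y, false) : D'.C × Bool).1 ≠ e x from e.injective.ne (Ne.symm hxy)),
        chi_nc hn' h1' (show ((e y, true) : D'.C × Bool).1 ≠ e x from e.injective.ne (Ne.symm hxy)),
        hout x true xp xq xr, hout x false xp xq xr, hout y true yp yq yr, hout y false yp yq yr]
  · intro i j
    exact tri_matrix hn h1 pq pr qr D.sign w A1 B1 A2 C2 B3 C3 rfl rfl rfl rfl rfl rfl hpos
      (fun i => F (Sum.inr i)) rfl rfl rfl i j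
  · intro i j
    have := tri_matrix hn' h1' (e.injective.ne pq) (e.injective.ne pr) (e.injective.ne qr) D'.sign
      (!w) B1 A1 C2 A2 C3 B3 q1 q2 q3 q4 q5 q6 flip (fun i => e (F (Sum.inr i))) rfl rfl rfl i j
    rw [hs, hs, hs, sg_not, hpos.flip_k] at this
    exact this
  · intro x i; exact hrow x i
  · intro x i
    change dd D.next (F (Sum.inr i)) x.1 = _
    rw [dd_antisymm h1, hrow]
  · intro x i; exact hrow' x i
  · intro x i
    change dd D'.next (e (F (Sum.inr i))) (e x.1) = _
    rw [dd_antisymm h1', hrow']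
  · exact tri_hM hn h1 (D.planar ⟨p⟩) pq pr qr D.sign w A1 B1 A2 C2 B3 C3 rfl rfl rfl rfl rfl rfl
      hpos ho

theorem meet_iff {C : Type} {next : C × Bool → C × Bool} {k : C} {x y : (C × Bool) × Bool} :
    Meet next k x y ↔
      ((x = (next (k, true), true) ∧ y = (next (k, false), false)) ∨
      (x = (next (k, false), true) ∧ y = ((k, true), true)) ∨
      (x = ((k, true), false) ∧ y = ((k, false), true)) ∨
      (x = ((k, false), false) ∧ y = (next (k, true), false))) ∨
      ((y = (next (k, true), true) ∧ x = (next (k, false), false)) ∨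
      (y = (next (k, false), true) ∧ x = ((k, true), true)) ∨
      (y = ((k, true), false) ∧ x = ((k, false), true)) ∨
      (y = ((k, false), false) ∧ x = (next (k, true), false))) := by
  have key : ∀ x y : (C × Bool) × Bool, Quadrant next k x y ↔
      ((x = (next (k, true), true) ∧ y = (next (k, false), false)) ∨
      (x = (next (k, false), true) ∧ y = ((k, true), true)) ∨
      (x = ((k, true), false) ∧ y = ((k, false), true)) ∨
      (x = ((k, false), false) ∧ y = (next (k, true), false))) := by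
    intro x y
    constructor
    · intro h
      cases h
      · exact Or.inl ⟨rfl, rfl⟩
      · exact Or.inr (Or.inl ⟨rfl, rfl⟩)
      · exact Or.inr (Or.inr (Or.inl ⟨rfl, rfl⟩))
      · exact Or.inr (Or.inr (Or.inr ⟨rfl, rfl⟩))
    · rintro (⟨rfl, rfl⟩ | ⟨rfl, rfl⟩ | ⟨rfl, rfl⟩ | ⟨rfl, rfl⟩)
      · exact Quadrant.ne
      · exact Quadrant.nw
      · exact Quadrant.sw
      · exact Quadrant.se
  unfold Meet
  rw [key, key]

/-- The directions and the sides of two edges that meet in a quadrant determine each other. -/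
theorem quad_calc {C : Type} {next : C × Bool → C × Bool} (hinj : Function.Injective next) {k : C}
    (σ o1 o2 s t : Bool) (e1 e2 : C × Bool)
    (h1 : if o1 then (e1 = next (k, σ) ∧ e1.1 ≠ k) else (e1 = (k, σ) ∧ ∀ b, e1 ≠ next (k, b)))
    (h2 : if o2 then (e2 = next (k, !σ) ∧ e2.1 ≠ k) else (e2 = (k, !σ) ∧ ∀ b, e2 ≠ next (k, b)))
    (hm : Meet next k (e1, s) (e2, t)) : o2 = (s == σ) ∧ t = (o1 ^^ σ) := by
  rw [meet_iff] at hm
  -- which edges at the crossing the two edges are
  have a1 : ∀ b, e1 = next (k, b) ↔ (o1 = true ∧ b = σ) := by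
    intro b
    cases o1
    · simp only [Bool.false_eq_true, if_false] at h1
      simp [h1.2 b]
    · simp only [if_true] at h1
      rw [h1.1, hinj.eq_iff]
      simp [eq_comm]
  have a2 : ∀ b, e2 = next (k, b) ↔ (o2 = true ∧ b = !σ) := by
    intro b
    cases o2
    · simp only [Bool.false_eq_true, if_false] at h2
      simp [h2.2 b]
    · simp only [if_true] at h2
      rw [h2.1, hinj.eq_iff]
      simp [eq_comm]
  have b1 : ∀ b, e1 = (k, b) ↔ o1 = false ∧ b = σ := by
    intro b
    cases o1
    · simp only [Bool.false_eq_true, if_false] at h1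
      rw [h1.1]; simp [eq_comm]
    · simp only [if_true] at h1
      constructor
      · intro h; exact absurd (congrArg Prod.fst h) h1.2
      · rintro ⟨h, -⟩; cases h
  have b2 : ∀ b, e2 = (k, b) ↔ o2 = false ∧ b = !σ := by
    intro b
    cases o2
    · simp only [Bool.false_eq_true, if_false] at h2
      rw [h2.1]; simp [eq_comm]
    · simp only [if_true] at h2
      constructor
      · intro h; exact absurd (congrArg Prod.fst h) h2.2
      · rintro ⟨h, -⟩; cases h
  simp only [Prod.mk.injEq, a1, a2, b1, b2] at hm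
  clear a1 a2 b1 b2 h1 h2
  cases σ <;> cases o1 <;> cases o2 <;> cases s <;> cases t <;> simp at hm ⊢

theorem tri_bool : ∀ w m1 m2 sp sq sr s t u : Bool,
    m1 = (s == sp) → t = (w ^^ sp) → m2 = (s == sq) → u = (!w ^^ sq) →
    (!m2) = (t == sr) → u = (!m1 ^^ sr) →
    m1 = (w == (sq == sr)) ∧ m2 = (w == (sp == sr)) := by
  decide

/-- In a triangular region the signs determine the order of the passages. -/
theorem Triangle.order {D : KnotDiagram} {p q r : D.C} (h : Triangle D p q r) :
    ∃ w, STri D p q r w := by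
  obtain ⟨pq, pr, qr, x, y, z, s, t, u, hx, hy, hz, hp, hq, hr⟩ := h
  have hinj := (next_bij D.one_component).1
  obtain ⟨w, hw1, hw2, hw3, hw4⟩ : ∃ w : Bool,
      (w = true → D.next (p, D.sign p) = (q, D.sign q)) ∧
      (w = true → x = (q, D.sign q)) ∧
      (w = false → D.next (q, D.sign q) = (p, D.sign p)) ∧ (w = false → x = (p, D.sign p)) := by
    rcases hx with ⟨a, b⟩ | ⟨a, b⟩
    · exact ⟨true, fun _ => a, fun _ => b, by simp, by simp⟩
    · exact ⟨false, by simp, by simp, fun _ => a, fun _ => b⟩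
  obtain ⟨m1, hm1, hm2, hm3, hm4⟩ : ∃ w : Bool,
      (w = true → D.next (p, !D.sign p) = (r, D.sign r)) ∧
      (w = true → y = (r, D.sign r)) ∧
      (w = false → D.next (r, D.sign r) = (p, !D.sign p)) ∧ (w = false → y = (p, !D.sign p)) := by
    rcases hy with ⟨a, b⟩ | ⟨a, b⟩
    · exact ⟨true, fun _ => a, fun _ => b, by simp, by simp⟩
    · exact ⟨false, by simp, by simp, fun _ => a, fun _ => b⟩
  obtain ⟨m2, hn1, hn2, hn3, hn4⟩ : ∃ w : Bool,
      (w = true → D.next (q, !D.sign q) = (r, !D.sign r)) ∧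
      (w = true → z = (r, !D.sign r)) ∧
      (w = false → D.next (r, !D.sign r) = (q, !D.sign q)) ∧ (w = false → z = (q, !D.sign q)) := by
    rcases hz with ⟨a, b⟩ | ⟨a, b⟩
    · exact ⟨true, fun _ => a, fun _ => b, by simp, by simp⟩
    · exact ⟨false, by simp, by simp, fun _ => a, fun _ => b⟩
  have nn : ∀ (a c : D.C) (s b : Bool), a ≠ c → D.next (a, s) ≠ D.next (c, b) := by
    intro a c s b hac h
    exact hac (Prod.mk.inj (hinj h)).1
  have cp := quad_calc hinj (D.sign p) w m1 s t x y
    (by
      cases w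
      · simp only [Bool.false_eq_true, if_false]
        refine ⟨hw4 rfl, fun b => ?_⟩
        rw [hw4 rfl, ← hw3 rfl]
        exact nn q p _ b pq.symm
      · simp only [if_true]
        rw [hw1 rfl, hw2 rfl]
        exact ⟨rfl, pq.symm⟩)
    (by
      cases m1
      · simp only [Bool.false_eq_true, if_false]
        refine ⟨hm4 rfl, fun b => ?_⟩
        rw [hm4 rfl, ← hm3 rfl]
        exact nn r p _ b pr.symm
      · simp only [if_true]
        rw [hm1 rfl, hm2 rfl]
        exact ⟨rfl, pr.symm⟩) hp
  have cq := quad_calc hinj (D.sign q) (!w) m2 s u x z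
    (by
      cases w
      · simp only [Bool.not_false, if_true]
        rw [hw3 rfl, hw4 rfl]
        exact ⟨rfl, pq⟩
      · simp only [Bool.not_true, Bool.false_eq_true, if_false]
        refine ⟨hw2 rfl, fun b => ?_⟩
        rw [hw2 rfl, ← hw1 rfl]
        exact nn p q _ b pq)
    (by
      cases m2
      · simp only [Bool.false_eq_true, if_false]
        refine ⟨hn4 rfl, fun b => ?_⟩
        rw [hn4 rfl, ← hn3 rfl]
        exact nn r q _ b qr.symm
      · simp only [if_true]
        rw [hn1 rfl, hn2 rfl]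
        exact ⟨rfl, qr.symm⟩) hq
  have cr := quad_calc hinj (D.sign r) (!m1) (!m2) t u y z
    (by
      cases m1
      · simp only [Bool.not_false, if_true]
        rw [hm3 rfl, hm4 rfl]
        exact ⟨rfl, pr⟩
      · simp only [Bool.not_true, Bool.false_eq_true, if_false]
        refine ⟨hm2 rfl, fun b => ?_⟩
        rw [hm2 rfl, ← hm1 rfl]
        exact nn p r _ b pr)
    (by
      cases m2
      · simp only [Bool.not_false, if_true]
        rw [hn3 rfl, hn4 rfl]
        exact ⟨rfl, qr⟩
      · simp only [Bool.not_true, Bool.false_eq_true, if_false]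
        refine ⟨hn2 rfl, fun b => ?_⟩
        rw [hn2 rfl, ← hn1 rfl]
        exact nn q r _ b qr) hr
  obtain ⟨e1, e2⟩ := tri_bool w m1 m2 (D.sign p) (D.sign q) (D.sign r) s t u cp.1 cp.2 cq.1 cq.2
    cr.1 cr.2
  refine ⟨w, pq, pr, qr, ?_, ?_, ?_⟩
  · cases w
    · exact hw3 rfl
    · exact hw1 rfl
  · rw [← e1]
    cases m1
    · exact hm3 rfl
    · exact hm1 rfl
  · rw [← e2]
    cases m2
    · exact hn3 rfl
    · exact hn1 rfl

theorem inv48_move (D D' : KnotDiagram) (h : Move D D') : inv48 D = inv48 D' := by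
  cases h with
  | relabel h => exact inv48_relabel _ _ h
  | r1 p b h1 h => exact inv48_r1 _ _ p b h1 h
  | r2 p q b hpq hsg h1 h2 h => exact inv48_r2 _ _ p q b hpq hsg h1 h2 h
  | r3 p q r e ht hs hx =>
    obtain ⟨w, hw⟩ := ht.order
    exact inv48_r3 _ _ p q r w e hw hs hx

end r3final

/-! ### Finite type, mirror images and the trefoil -/

section fintype

theorem alt_zero {α : Type} (A : Finset α) (g : Finset α → ℝ) (x : α) (hx : x ∈ A)
    (hg : ∀ T, x ∉ T → g (insert x T) = g T) : ∑ T ∈ A.powerset, (-1 : ℝ) ^ T.card * g T = 0 := by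
  rw [← Finset.insert_erase hx, Finset.sum_powerset_insert (Finset.notMem_erase x A),
    ← Finset.sum_add_distrib]
  refine Finset.sum_eq_zero fun T hT => ?_
  have hxT : x ∉ T := fun h => Finset.notMem_erase x A (Finset.mem_powerset.1 hT h)
  rw [hg T hxT, Finset.card_insert_of_notMem hxT, pow_succ]
  ring

theorem exists_avoid {α : Type} (A : Finset α) (hA : A.card = 4) (a b c : α) :
    ∃ x ∈ A, x ≠ a ∧ x ≠ b ∧ x ≠ c := by
  by_contra hcon
  push Not at hcon
  have hsub : A ⊆ {a, b, c} := by
    intro x hx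
    simp only [Finset.mem_insert, Finset.mem_singleton]
    by_cases h1 : x = a
    · exact Or.inl h1
    · by_cases h2 : x = b
      · exact Or.inr (Or.inl h2)
      · exact Or.inr (Or.inr (hcon x hx h1 h2))
  have h1 := Finset.card_le_card hsub
  have h2 : ({a, b, c} : Finset α).card ≤ 3 := Finset.card_le_three
  omega

/-- the invariant -/
noncomputable def v3 (D : KnotDiagram) : ℝ := (inv48 D : ℝ) / 48

theorem v3_degree (D : KnotDiagram) (A : Finset D.C) (hA : A.card = 4) :
    singularValue v3 D A = 0 := by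
  have hval : ∀ T : Finset D.C, v3 (D.resolve A T) = ∑ a : D.C, ∑ b : D.C, ∑ c : D.C,
      (((2 * fT (dd D.next) (fun c => sg (if c ∈ A then decide (c ∉ T) else D.sign c)) a b c +
        3 * fQ (dd D.next) (fun c => sg (if c ∈ A then decide (c ∉ T) else D.sign c)) a b c : ℤ) : ℝ)
        / 48) := by
    intro T
    have h1 : inv48 (D.resolve A T) =
      val (dd D.next) (fun c => sg (if c ∈ A then decide (c ∉ T) else D.sign c)) := rfl
    unfold v3
    rw [h1]
    unfold val
    push_cast
    simp only [Finset.sum_div]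
  unfold singularValue
  simp only [hval]
  simp only [Finset.mul_sum]
  rw [Finset.sum_comm]
  refine Finset.sum_eq_zero fun a _ => ?_
  rw [Finset.sum_comm]
  refine Finset.sum_eq_zero fun b _ => ?_
  rw [Finset.sum_comm]
  refine Finset.sum_eq_zero fun c _ => ?_
  obtain ⟨x, hxA, xa, xb, xc⟩ := exists_avoid A hA a b c
  refine alt_zero A _ x hxA ?_
  intro T hT
  have key : ∀ y : D.C, x ≠ y → (sg (if y ∈ A then decide (y ∉ insert x T) else D.sign y)) =
      sg (if y ∈ A then decide (y ∉ T) else D.sign y) := by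
    intro y hy
    congr 2
    simp [hy.symm]
  unfold fT fQ
  beta_reduce
  rw [key a xa, key b xb, key c xc]

theorem v3_mirror (D : KnotDiagram) : v3 D.mirror = - v3 D := by
  have h1 : inv48 D.mirror = val (dd D.next) (fun c => sg (!D.sign c)) := rfl
  have h2 : inv48 D.mirror = - inv48 D := by
    rw [h1]
    unfold inv48 val
    rw [← Finset.sum_neg_distrib]
    refine Finset.sum_congr rfl fun a _ => ?_
    rw [← Finset.sum_neg_distrib]
    refine Finset.sum_congr rfl fun b _ => ?_
    rw [← Finset.sum_neg_distrib]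
    refine Finset.sum_congr rfl fun c _ => ?_
    unfold fT fQ
    simp only [sg_not]
    ring
  unfold v3
  rw [h2]
  push_cast
  ring

def trefPos (x : Fin 3 × Bool) : ℕ :=
  match x with
  | (0, true) => 0
  | (1, false) => 1
  | (2, true) => 2
  | (0, false) => 3
  | (1, true) => 4
  | (2, false) => 5

theorem tref_num : Num trefNext 6 trefPos := by
  refine ⟨?_, ?_, ?_⟩
  · decide
  · unfold Function.Injective; decide
  · decide

theorem nc_iff (a b c : ℕ) : nc a b c ↔ (a < b ∧ b < c) ∨ (b < c ∧ c < a) ∨ (c < a ∧ a < b) := Iff.rfl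

theorem tref_dd (a b : Fin 3) (hab : a ≠ b) : dd trefNext a b ^ 2 = 1 := by
  rw [dd_ne hab, chi_nc tref_num tref_one (by simpa using hab.symm),
    chi_nc tref_num tref_one (by simpa using hab.symm)]
  simp only [nc_iff]
  revert hab
  revert a b
  decide

theorem tref_value : inv48 rightTrefoil = 48 := by
  have h0 : ∀ (f : Fin 3 → ℤ), ∑ c : rightTrefoil.C, f c = f 0 + f 1 + f 2 := by
    intro f
    rw [← Fin.sum_univ_three f]
    exact @Fintype.sum_equiv rightTrefoil.C (Fin 3) ℤ _ _ _ (Equiv.refl (Fin 3)) f f (fun _ => rfl)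
  have h1 : inv48 rightTrefoil = ∑ a : rightTrefoil.C, ∑ b : rightTrefoil.C, ∑ c : rightTrefoil.C,
      (2 * fT (dd trefNext) (fun _ => sg true) a b c + 3 * fQ (dd trefNext) (fun _ => sg true) a b c) :=
    rfl
  have d01 := tref_dd 0 1 (by decide)
  have d02 := tref_dd 0 2 (by decide)
  have d10 := tref_dd 1 0 (by decide)
  have d12 := tref_dd 1 2 (by decide)
  have d20 := tref_dd 2 0 (by decide)
  have d21 := tref_dd 2 1 (by decide)
  rw [h1]
  simp only [h0, fT, fQ, dd_self, d01, d02, d10, d12, d20, d21, sg, if_true]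
  have m01 : dd trefNext 0 1 * dd trefNext 0 1 = 1 := by rw [← pow_two]; exact d01
  have m02 : dd trefNext 0 2 * dd trefNext 0 2 = 1 := by rw [← pow_two]; exact d02
  have m10 : dd trefNext 1 0 * dd trefNext 1 0 = 1 := by rw [← pow_two]; exact d10
  have m12 : dd trefNext 1 2 * dd trefNext 1 2 = 1 := by rw [← pow_two]; exact d12
  have m20 : dd trefNext 2 0 * dd trefNext 2 0 = 1 := by rw [← pow_two]; exact d20
  have m21 : dd trefNext 2 1 * dd trefNext 2 1 = 1 := by rw [← pow_two]; exact d21
  rw [m01, m02, m10, m12, m20, m21]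
  ring

theorem v3_trefoil : v3 rightTrefoil = 1 := by
  unfold v3
  rw [tref_value]
  norm_num

end fintype

section bound

/-- rotations of a triple sum -/
theorem sum_rot {C : Type} [Fintype C] (g : C → C → C → ℤ) :
    3 * ∑ a, ∑ b, ∑ c, g a b c = ∑ a, ∑ b, ∑ c, (g a b c + g b c a + g c a b) := by
  have e1 : ∑ a, ∑ b, ∑ c, g b c a = ∑ a, ∑ b, ∑ c, g a b c := by
    rw [Finset.sum_comm]
    exact Finset.sum_congr rfl fun b _ => Finset.sum_comm
  have e2 : ∑ a, ∑ b, ∑ c, g c a b = ∑ a, ∑ b, ∑ c, g a b c := by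
    have : ∑ a, ∑ b, ∑ c, g c a b = ∑ a, ∑ c, ∑ b, g c a b :=
      Finset.sum_congr rfl fun a _ => Finset.sum_comm
    rw [this, Finset.sum_comm]
  simp only [Finset.sum_add_distrib]
  rw [e1, e2]
  ring

theorem triple_bound (x y z : ℤ) (hx : x = 0 ∨ x = 1 ∨ x = -1) (hy : y = 0 ∨ y = 1 ∨ y = -1)
    (hz : z = 0 ∨ z = 1 ∨ z = -1) (e f g : ℤ) (he : e = 1 ∨ e = -1) (hf : f = 1 ∨ f = -1)
    (hg : g = 1 ∨ g = -1) :
    |(2 * (x ^ 2 * y ^ 2 * z ^ 2 * (e * f * g)) +
        3 * ((1 - y ^ 2) * e * (x ^ 2 * (-z) ^ 2 * (f * g) + x * (-z)))) +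
      (2 * (y ^ 2 * z ^ 2 * x ^ 2 * (f * g * e)) +
        3 * ((1 - z ^ 2) * f * (y ^ 2 * (-x) ^ 2 * (g * e) + y * (-x)))) +
      (2 * (z ^ 2 * x ^ 2 * y ^ 2 * (g * e * f)) +
        3 * ((1 - x ^ 2) * g * (z ^ 2 * (-y) ^ 2 * (e * f) + z * (-y))))| ≤ 6 := by
  rcases hx with rfl | rfl | rfl <;> rcases hy with rfl | rfl | rfl <;>
  rcases hz with rfl | rfl | rfl <;> rcases he with rfl | rfl <;> rcases hf with rfl | rfl <;>
  rcases hg with rfl | rfl <;> decide

theorem count3 {C : Type} [Fintype C] :
    ∑ a : C, ∑ b : C, ∑ c : C, (if a = b ∨ b = c ∨ c = a then (0 : ℤ) else 1) =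
      (Fintype.card C : ℤ) * (Fintype.card C - 1) * (Fintype.card C - 2) := by
  have h1 : ∀ a b c : C, (if a = b ∨ b = c ∨ c = a then (0 : ℤ) else 1) =
      (1 - (if a = b then 1 else 0)) * (1 - (if b = c then 1 else 0) - (if c = a then 1 else 0)) := by
    intro a b c
    by_cases hab : a = b
    · simp [hab]
    · by_cases hbc : b = c
      · have : c ≠ a := by rintro rfl; exact hab hbc.symm
        simp [hab, hbc, this]
      · by_cases hca : c = a
        · rw [if_pos (Or.inr (Or.inr hca)), if_neg hab, if_neg hbc, if_pos hca]; norm_num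
        · rw [if_neg (by tauto), if_neg hab, if_neg hbc, if_neg hca]; norm_num
  simp only [h1]
  have h2 : ∀ a b : C, ∑ c : C, (1 - (if a = b then (1 : ℤ) else 0)) *
      (1 - (if b = c then 1 else 0) - (if c = a then 1 else 0)) =
      (1 - (if a = b then (1 : ℤ) else 0)) * (Fintype.card C - 2) := by
    intro a b
    rw [← Finset.mul_sum]
    congr 1
    simp only [Finset.sum_sub_distrib, Finset.sum_ite_eq, Finset.sum_ite_eq', Finset.mem_univ,
      if_true, Finset.sum_const, Finset.card_univ, nsmul_eq_mul, mul_one]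
    ring
  simp only [h2]
  have h3 : ∀ a : C, ∑ b : C, (1 - (if a = b then (1 : ℤ) else 0)) * (Fintype.card C - 2) =
      (Fintype.card C - 1) * (Fintype.card C - 2) := by
    intro a
    rw [← Finset.sum_mul]
    congr 1
    simp only [Finset.sum_sub_distrib, Finset.sum_ite_eq, Finset.mem_univ,
      if_true, Finset.sum_const, Finset.card_univ, nsmul_eq_mul, mul_one]
  simp only [h3, Finset.sum_const, Finset.card_univ, nsmul_eq_mul]
  ring

/-- the main estimate -/
theorem val_bound {C : Type} [Fintype C] (D : C → C → ℤ) (ε : C → ℤ)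
    (h0 : ∀ a, D a a = 0) (has : ∀ a b, D a b = - D b a)
    (hD : ∀ a b, D a b = 0 ∨ D a b = 1 ∨ D a b = -1) (hε : ∀ a, ε a = 1 ∨ ε a = -1) :
    |val D ε| ≤ 2 * ((Fintype.card C : ℤ) * (Fintype.card C - 1) * (Fintype.card C - 2)) +
      6 * ∑ a, ∑ b, D a b ^ 2 := by
  have key : ∀ a b c : C, |(2 * fT D ε a b c + 3 * fQ D ε a b c) +
      (2 * fT D ε b c a + 3 * fQ D ε b c a) + (2 * fT D ε c a b + 3 * fQ D ε c a b)| ≤
      6 * (if a = b ∨ b = c ∨ c = a then (0 : ℤ) else 1) +
      6 * ((if b = c then D a b ^ 2 else 0) + (if c = a then D b c ^ 2 else 0) +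
        (if a = b then D c a ^ 2 else 0)) := by
    intro a b c
    by_cases hab : a = b
    · subst hab
      by_cases hac : a = c
      · subst hac
        simp [fT, fQ, h0]
      · have h1 : c ≠ a := Ne.symm hac
        simp only [fT, fQ, h0, has a c]
        rcases hD c a with h | h | h <;> rcases hε a with e | e <;> rcases hε c with f | f <;>
          simp [h, e, f, h1, hac]
    · by_cases hbc : b = c
      · subst hbc
        have h1 : b ≠ a := Ne.symm hab
        simp only [fT, fQ, h0, has b a]
        rcases hD a b with h | h | h <;> rcases hε a with e | e <;> rcases hε b with f | f <;>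
          simp [h, e, f, h1, hab]
      · by_cases hca : c = a
        · subst hca
          simp only [fT, fQ, h0, has c b]
          rcases hD b c with h | h | h <;> rcases hε c with e | e <;> rcases hε b with f | f <;>
            simp [h, e, f, hab, hbc]
        · simp only [hab, hbc, hca, or_self, if_false, mul_one, add_zero, mul_zero]
          unfold fT fQ
          rw [has a c, has b a, has c b]
          exact triple_bound (D a b) (D b c) (D c a) (hD _ _) (hD _ _) (hD _ _) (ε a) (ε b) (ε c)
            (hε _) (hε _) (hε _)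
  have h1 : |3 * val D ε| ≤ ∑ a : C, ∑ b : C, ∑ c : C,
      (6 * (if a = b ∨ b = c ∨ c = a then (0 : ℤ) else 1) +
      6 * ((if b = c then D a b ^ 2 else 0) + (if c = a then D b c ^ 2 else 0) +
        (if a = b then D c a ^ 2 else 0))) := by
    unfold val
    rw [sum_rot]
    refine (Finset.abs_sum_le_sum_abs _ _).trans (Finset.sum_le_sum fun a _ => ?_)
    refine (Finset.abs_sum_le_sum_abs _ _).trans (Finset.sum_le_sum fun b _ => ?_)
    refine (Finset.abs_sum_le_sum_abs _ _).trans (Finset.sum_le_sum fun c _ => ?_)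
    exact key a b c
  have h2 : ∑ a : C, ∑ b : C, ∑ c : C,
      (6 * (if a = b ∨ b = c ∨ c = a then (0 : ℤ) else 1) +
      6 * ((if b = c then D a b ^ 2 else 0) + (if c = a then D b c ^ 2 else 0) +
        (if a = b then D c a ^ 2 else 0))) =
      6 * ((Fintype.card C : ℤ) * (Fintype.card C - 1) * (Fintype.card C - 2)) +
      18 * ∑ a, ∑ b, D a b ^ 2 := by
    simp only [Finset.sum_add_distrib, ← Finset.mul_sum]
    rw [count3]
    have s1 : ∑ a : C, ∑ b : C, ∑ c : C, (if b = c then D a b ^ 2 else 0) =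
        ∑ a, ∑ b, D a b ^ 2 := by simp
    have s2 : ∑ a : C, ∑ b : C, ∑ c : C, (if c = a then D b c ^ 2 else 0) =
        ∑ a, ∑ b, D a b ^ 2 := by
      simp only [Finset.sum_ite_eq', Finset.mem_univ, if_true]
      exact Finset.sum_comm
    have s3 : ∑ a : C, ∑ b : C, ∑ c : C, (if a = b then D c a ^ 2 else 0) =
        ∑ a, ∑ b, D a b ^ 2 := by
      have : ∀ a b : C, ∑ c : C, (if a = b then D c a ^ 2 else 0) =
          if a = b then ∑ c : C, D c a ^ 2 else 0 := by
        intro a b
        split_ifs <;> simp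
      simp only [this, Finset.sum_ite_eq, Finset.mem_univ, if_true]
      exact Finset.sum_comm
    rw [s1, s2, s3]
    ring
  rw [h2, abs_mul] at h1
  have h3 : |(3 : ℤ)| = 3 := rfl
  rw [h3] at h1
  linarith

theorem deg_le {C : Type} [Fintype C] (D : C → C → ℤ) (h0 : ∀ a, D a a = 0)
    (hD : ∀ a b, D a b = 0 ∨ D a b = 1 ∨ D a b = -1) (a : C) :
    ∑ b, D a b ^ 2 ≤ Fintype.card C - 1 := by
  rw [← Finset.add_sum_erase _ _ (Finset.mem_univ a), h0]
  have h1 : ∑ b ∈ univ.erase a, D a b ^ 2 ≤ ∑ b ∈ univ.erase a, (1 : ℤ) := by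
    refine Finset.sum_le_sum fun b _ => ?_
    rcases hD a b with h | h | h <;> rw [h] <;> norm_num
  rw [Finset.sum_const, Finset.card_erase_of_mem (Finset.mem_univ a), Finset.card_univ,
    nsmul_eq_mul, mul_one] at h1
  have h2 : 1 ≤ Fintype.card C := Fintype.card_pos_iff.2 ⟨a⟩
  push_cast [h2] at h1
  linarith

theorem deg_even {C : Type} [Fintype C] (D : C → C → ℤ)
    (hD : ∀ a b, D a b = 0 ∨ D a b = 1 ∨ D a b = -1) (a : C) (hs : ∑ b, D a b = 0) :
    Even (∑ b, D a b ^ 2) := by
  have h1 : ∑ b, D a b ^ 2 = ∑ b, (D a b ^ 2 - D a b) := by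
    rw [Finset.sum_sub_distrib, hs, sub_zero]
  rw [h1]
  refine Finset.even_sum _ fun b _ => ?_
  rcases hD a b with h | h | h <;> rw [h] <;> decide

theorem inv48_bound (D : KnotDiagram) [Nonempty D.C] :
    |inv48 D| ≤ 2 * ((Fintype.card D.C : ℤ) * ((Fintype.card D.C : ℤ) ^ 2 - 1)) ∧
    (Even (Fintype.card D.C) →
      |inv48 D| ≤ 2 * ((Fintype.card D.C : ℤ) * ((Fintype.card D.C : ℤ) ^ 2 - 4))) := by
  have h1 := D.one_component
  have hp := D.planar ‹_›
  have hb := val_bound (dd D.next) (fun c => sg (D.sign c)) (fun a => dd_self a)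
    (fun a b => dd_antisymm h1 a b) (fun a b => dd_cases a b)
    (fun a => by cases D.sign a <;> simp [sg])
  change |inv48 D| ≤ _ at hb
  have hd := deg_le (dd D.next) (fun a => dd_self a) (fun a b => dd_cases a b)
  set n := Fintype.card D.C with hn
  constructor
  · have h2 : ∑ a : D.C, ∑ b, dd D.next a b ^ 2 ≤ ∑ a : D.C, ((n : ℤ) - 1) :=
      Finset.sum_le_sum fun a _ => hd a
    rw [Finset.sum_const, Finset.card_univ, nsmul_eq_mul, ← hn] at h2
    nlinarith
  · intro heven
    have h2 : ∑ a : D.C, ∑ b, dd D.next a b ^ 2 ≤ ∑ a : D.C, ((n : ℤ) - 2) := by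
      refine Finset.sum_le_sum fun a _ => ?_
      have h3 := hd a
      have h4 := deg_even (dd D.next) (fun a b => dd_cases a b) a (index_rel h1 hp a)
      obtain ⟨k, hk⟩ := h4
      obtain ⟨l, hl⟩ := heven
      rw [hk] at h3 ⊢
      omega
    rw [Finset.sum_const, Finset.card_univ, nsmul_eq_mul, ← hn] at h2
    nlinarith

theorem v3_bound (D : KnotDiagram) :
    |v3 D| ≤ (⌊(Nat.card D.C : ℝ) * ((Nat.card D.C : ℝ) ^ 2 - 1) / 24⌋ : ℤ) := by
  rw [Nat.card_eq_fintype_card]
  rcases isEmpty_or_nonempty D.C with he | hne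
  · have h0 : inv48 D = 0 := by
      unfold inv48 val
      simp
    unfold v3
    rw [h0, Fintype.card_eq_zero]
    simp
  · obtain ⟨hb1, hb2⟩ := inv48_bound D
    set n := Fintype.card D.C with hn
    have habs : |v3 D| = (|inv48 D| : ℤ) / 48 := by
      unfold v3
      rw [abs_div, Int.cast_abs]
      norm_num
    rw [habs]
    rcases Nat.even_or_odd n with hev | hod
    · -- even number of crossings
      obtain ⟨k, hk⟩ := id hev
      have h2 := hb2 hev
      -- the product of three consecutive integers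
      have h3 : (3 : ℤ) ∣ ((k : ℤ) - 1) * k * (k + 1) := by
        have : ((k : ℤ) - 1) * k * (k + 1) % 3 = 0 := by
          have hk3 : (k : ℤ) % 3 = 0 ∨ (k : ℤ) % 3 = 1 ∨ (k : ℤ) % 3 = 2 := by omega
          rcases hk3 with h | h | h <;> simp [Int.mul_emod, Int.add_emod, Int.sub_emod, h]
        exact Int.dvd_of_emod_eq_zero this
      obtain ⟨M, hM⟩ := h3
      have h4 : |inv48 D| ≤ 48 * M := by
        have : (n : ℤ) = k + k := by exact_mod_cast hk
        rw [this] at h2
        nlinarith
      have h5 : (|inv48 D| : ℤ) / (48 : ℝ) ≤ M := by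
        rw [div_le_iff₀ (by norm_num)]
        have : ((|inv48 D| : ℤ) : ℝ) ≤ ((48 * M : ℤ) : ℝ) := by exact_mod_cast h4
        push_cast at this ⊢
        linarith
      refine h5.trans ?_
      have h6 : M ≤ ⌊(n : ℝ) * ((n : ℝ) ^ 2 - 1) / 24⌋ := by
        rw [Int.le_floor, le_div_iff₀ (by norm_num)]
        have hn' : (n : ℝ) = k + k := by exact_mod_cast hk
        have hM' : ((k : ℝ) - 1) * k * (k + 1) = 3 * M := by exact_mod_cast hM
        have hk0 : (0 : ℝ) ≤ k := Nat.cast_nonneg k
        rw [hn']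
        nlinarith
      exact_mod_cast h6
    · -- odd number of crossings
      obtain ⟨k, hk⟩ := hod
      have h3 : (6 : ℤ) ∣ (k : ℤ) * (k + 1) * (2 * k + 1) := by
        have : (k : ℤ) * (k + 1) * (2 * k + 1) % 6 = 0 := by
          have hk3 : (k : ℤ) % 6 = 0 ∨ (k : ℤ) % 6 = 1 ∨ (k : ℤ) % 6 = 2 ∨ (k : ℤ) % 6 = 3 ∨
            (k : ℤ) % 6 = 4 ∨ (k : ℤ) % 6 = 5 := by omega
          rcases hk3 with h | h | h | h | h | h <;> simp [Int.mul_emod, Int.add_emod, h]
        exact Int.dvd_of_emod_eq_zero this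
      obtain ⟨M, hM⟩ := h3
      have hn1 : (n : ℤ) = 2 * k + 1 := by exact_mod_cast hk
      have h4 : |inv48 D| ≤ 48 * M := by
        rw [hn1] at hb1
        nlinarith
      have h5 : (|inv48 D| : ℤ) / (48 : ℝ) ≤ M := by
        rw [div_le_iff₀ (by norm_num)]
        have : ((|inv48 D| : ℤ) : ℝ) ≤ ((48 * M : ℤ) : ℝ) := by exact_mod_cast h4
        push_cast at this ⊢
        linarith
      refine h5.trans ?_
      have h6 : M ≤ ⌊(n : ℝ) * ((n : ℝ) ^ 2 - 1) / 24⌋ := by
        rw [Int.le_floor, le_div_iff₀ (by norm_num)]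
        have hn' : (n : ℝ) = 2 * k + 1 := by exact_mod_cast hk
        have hM' : (k : ℝ) * (k + 1) * (2 * k + 1) = 6 * M := by exact_mod_cast hM
        rw [hn']
        nlinarith
      exact_mod_cast h6

end bound

/-- There is a Vassiliev invariant `v` of degree at most three of oriented knots (a function of
the diagram that is invariant under the Reidemeister moves and vanishes on all singular diagrams
with four double points) which changes its sign under mirror images, takes the value `1` on the
right-handed trefoil, and satisfies Willerton's inequality for all diagrams with `n` crossings. -/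
theorem result : ∃ v : KnotDiagram → ℝ,
    (∀ D D' : KnotDiagram, Move D D' → v D = v D') ∧
    (∀ (D : KnotDiagram) (A : Finset D.C), A.card = 4 → singularValue v D A = 0) ∧
    (∀ D : KnotDiagram, v D.mirror = - v D) ∧
    v rightTrefoil = 1 ∧
    ∀ D : KnotDiagram,
      |v D| ≤ (⌊(Nat.card D.C : ℝ) * ((Nat.card D.C : ℝ) ^ 2 - 1) / 24⌋ : ℤ) := by
  refine ⟨v3, ?_, v3_degree, v3_mirror, v3_trefoil, v3_bound⟩
  intro D D' h
  unfold v3
  rw [inv48_move D D' h]

end Pool.Agent.Results.MP_6e410e_gt.Willerton
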